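import Pool.Agent.Helper92.Bulk.LinkD
import Pool.Agent.Helper18.OneArm.FinalCyl

/-!
The full-plane one-arm exponent `5/48` of critical bond percolation on the square lattice.
-/

set_option autoImplicit false

namespace H92Link
open Finset Filter Topology H47Perc Cyl
open OneArm (h0 pcyl pcyl_asymptotics)

/-- asymptotics of the one-arm form -/
theorem form_asymptotics : ∃ c C : ℝ, 0 < c ∧ ∀ n : ℕ, 1 ≤ n →
    c * (n:ℝ) ^ (-(5 / 48) : ℝ) ≤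
      IPC.bil (h0 (2 * n)) (IPC.P (2 * n) (fun _ => 0)) (IPC.P (2 * n) (fun _ => 0)) ∧
    IPC.bil (h0 (2 * n)) (IPC.P (2 * n) (fun _ => 0)) (IPC.P (2 * n) (fun _ => 0)) ≤
      C * (n:ℝ) ^ (-(5 / 48) : ℝ) := by
  obtain ⟨c, C, hc, hC, h⟩ := pcyl_asymptotics
  have h2 : (0:ℝ) < 2 ^ (-(5 / 48) : ℝ) := Real.rpow_pos_of_pos (by norm_num) _
  refine ⟨c * 2 ^ (-(5 / 48) : ℝ), C * 2 ^ (-(5 / 48) : ℝ), by positivity, fun n hn => ?_⟩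
  obtain ⟨e1, e2⟩ := h n hn
  unfold pcyl at e1 e2
  have e : ((2 * n : ℕ) : ℝ) ^ (-(5 / 48) : ℝ) = 2 ^ (-(5 / 48) : ℝ) * (n:ℝ) ^ (-(5 / 48) : ℝ) := by
    push_cast
    rw [Real.mul_rpow (by norm_num) (by positivity)]
  rw [e] at e1 e2
  constructor
  · calc _ = c * (2 ^ (-(5 / 48) : ℝ) * (n:ℝ) ^ (-(5 / 48) : ℝ)) := by ring
      _ ≤ _ := e1
  · calc _ ≤ C * (2 ^ (-(5 / 48) : ℝ) * (n:ℝ) ^ (-(5 / 48) : ℝ)) := e2
      _ = _ := by ring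

/-- **The one-arm exponent**: `pi1 n` is the probability that `0` is joined to distance `n` in the
box `[-n,n]²`. -/
theorem one_arm : ∃ c C : ℝ, 0 < c ∧ ∀ n : ℕ, 1 ≤ n →
    c * (n:ℝ) ^ (-(5 / 48) : ℝ) ≤ pi1 n ∧ pi1 n ≤ C * (n:ℝ) ^ (-(5 / 48) : ℝ) :=
  pi1_exponent' H46.rsw_pLR (by norm_num) (fun _ hn => pW_tendsto hn) form_asymptotics

/-- **The crossing exponents of annuli.** -/
theorem annulus_crossing : ∃ c C : ℝ, 0 < c ∧ ∀ m n : ℕ, m ≤ n →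
    c * (((m:ℝ) + 1) / (n + 1)) ^ (5 / 48 : ℝ) ≤ crF m n ∧
    crF m n ≤ C * (((m:ℝ) + 1) / (n + 1)) ^ (5 / 48 : ℝ) :=
  bulk_of_form (by norm_num) form_asymptotics

end H92Link
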