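import Pool.Agent.Helper92.Bulk.CylWind

/-!
The full-plane one-arm exponent from the winding probability on the cylinder.
-/

set_option autoImplicit false

namespace H47Perc
open Finset Filter Topology

lemma fullAnn_zero (n : ℤ) : fullAnn 0 n = box (-n) n (-n) n := by
  classical
  unfold fullAnn
  apply filter_true_of_mem
  intro z _
  unfold nrm; exact le_max_of_le_left (abs_nonneg _)

lemma nrm_eq_zero {u : ℤ × ℤ} : nrm u = 0 ↔ u = (0, 0) := by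
  unfold nrm
  constructor
  · intro h
    have h1 := le_max_left |u.1| |u.2|
    have h2 := le_max_right |u.1| |u.2|
    rw [h] at h1 h2
    have h3 : u.1 = 0 := abs_eq_zero.1 (le_antisymm h1 (abs_nonneg _))
    have h4 : u.2 = 0 := abs_eq_zero.1 (le_antisymm h2 (abs_nonneg _))
    exact Prod.ext h3 h4
  · rintro rfl; simp

lemma crF_zero (n : ℕ) : crF 0 n = pi1 n := by
  classical
  unfold crF pi1 armP
  rw [show ((0:ℕ):ℤ) = 0 from rfl, fullAnn_zero, Pool.Agent.Helper69.RSW.perc_half_eq,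
    Pool.Agent.Helper69.RSW.perc_half_eq]
  apply Pool.Agent.Helper69.RSW.P_congr
  intro ω hω
  have hsub : ω ⊆ edgesIn (box (-(n:ℤ)) n (-n) n) := hω
  have key : ∀ z : ℤ × ℤ, Joined ω (0, 0) z → z ∈ box (-(n:ℤ)) n (-n) n := by
    intro z hz
    exact mem_of_joined hsub hz (by rw [mem_box]; simp)
  unfold Arm AtDist
  rw [ball_zero_box, inter_self, inter_eq_left.2 hsub]
  constructor
  · rintro ⟨u, z, h1, h2, h3⟩
    rw [nrm_eq_zero] at h1
    subst h1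
    refine ⟨z, ?_, h3⟩
    rw [sub_zero, sub_zero]
    unfold nrm at h2
    rcases max_choice |z.1| |z.2| with h | h
    · left; rw [h] at h2; exact h2
    · right; rw [h] at h2; exact h2
  · rintro ⟨z, h1, h2⟩
    refine ⟨(0, 0), z, nrm_eq_zero.2 rfl, ?_, h2⟩
    rw [sub_zero, sub_zero] at h1
    have h3 := key z h2
    rw [mem_box] at h3
    have h4 : |z.1| ≤ n := abs_le.2 ⟨h3.1, h3.2.1⟩
    have h5 : |z.2| ≤ n := abs_le.2 ⟨h3.2.2.1, h3.2.2.2⟩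
    unfold nrm
    rcases h1 with h1 | h1
    · rw [h1]; exact max_eq_left h5
    · rw [h1]; exact max_eq_right h4

lemma crF_zero_zero : crF 0 0 = 1 := by
  classical
  unfold crF
  rw [Pool.Agent.Helper69.RSW.perc_half_eq, ← Pool.Agent.Helper69.RSW.P_true
    (edgesIn (fullAnn (0:ℕ) (0:ℕ)))]
  apply Pool.Agent.Helper69.RSW.P_congr
  intro ω _
  simp only [iff_true]
  exact ⟨(0, 0), (0, 0), nrm_eq_zero.2 rfl, nrm_eq_zero.2 rfl, joined_refl _ _⟩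

/-- one-arm and crossing bounds in a uniform form -/
lemma uniform_form' {α c C k K : ℝ} (hα : 0 < α) (hc : 0 < c) (hC : 0 ≤ C) (hk : 0 < k)
    (hK : 0 ≤ K)
    {g : ℕ → ℕ → ℝ} (h00 : g 0 0 = 1)
    (h0 : ∀ n : ℕ, 1 ≤ n → c * (n:ℝ) ^ (-α) ≤ g 0 n ∧ g 0 n ≤ C * (n:ℝ) ^ (-α))
    (h1 : ∀ m n : ℕ, 1 ≤ m → m ≤ n → k * ((m:ℝ) / n) ^ α ≤ g m n ∧ g m n ≤ K * ((m:ℝ) / n) ^ α)
    {m n : ℕ} (hmn : m ≤ n) :
    min 1 (min c (k / 2 ^ α)) * (((m:ℝ) + 1) / (n + 1)) ^ α ≤ g m n ∧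
      g m n ≤ max 1 (max (C * 2 ^ α) K) * (((m:ℝ) + 1) / (n + 1)) ^ α := by
  have h2α : (0:ℝ) < 2 ^ α := Real.rpow_pos_of_pos (by norm_num) _
  have hn1 : (0:ℝ) < (n:ℝ) + 1 := by positivity
  have hr : 0 ≤ (((m:ℝ) + 1) / (n + 1)) ^ α := by positivity
  rcases Nat.eq_zero_or_pos m with rfl | hm
  · rcases Nat.eq_zero_or_pos n with rfl | hn
    · rw [h00]
      simp only [Nat.cast_zero, zero_add, div_one, Real.one_rpow, mul_one]
      exact ⟨min_le_left _ _, le_max_left _ _⟩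
    · have hn0 : (0:ℝ) < n := by exact_mod_cast hn
      obtain ⟨e1, e2⟩ := h0 n hn
      have e3 : (((0:ℕ):ℝ) + 1) / ((n:ℝ) + 1) = ((n:ℝ) + 1)⁻¹ := by simp
      have e4 : (((0:ℕ):ℝ) + 1) / ((n:ℝ) + 1) ≤ (n:ℝ)⁻¹ := by
        rw [e3]; exact inv_anti₀ hn0 (by linarith)
      have e5 : ((((0:ℕ):ℝ) + 1) / ((n:ℝ) + 1)) ^ α ≤ (n:ℝ) ^ (-α) := by
        rw [Real.rpow_neg hn0.le, ← Real.inv_rpow hn0.le]
        exact Real.rpow_le_rpow (by positivity) e4 hα.le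
      have e6 : (n:ℝ) ^ (-α) ≤ 2 ^ α * ((((0:ℕ):ℝ) + 1) / ((n:ℝ) + 1)) ^ α := by
        rw [Real.rpow_neg hn0.le, ← Real.inv_rpow hn0.le, ← Real.mul_rpow (by norm_num)
          (by positivity)]
        apply Real.rpow_le_rpow (by positivity) _ hα.le
        rw [e3, ← div_eq_mul_inv, inv_eq_one_div, div_le_div_iff₀ hn0 hn1]
        have : (1:ℝ) ≤ n := by exact_mod_cast hn
        linarith
      constructor
      · calc _ ≤ c * ((((0:ℕ):ℝ) + 1) / ((n:ℝ) + 1)) ^ α :=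
              mul_le_mul_of_nonneg_right ((min_le_right _ _).trans (min_le_left _ _)) hr
          _ ≤ c * (n:ℝ) ^ (-α) := mul_le_mul_of_nonneg_left e5 hc.le
          _ ≤ _ := e1
      · calc _ ≤ C * (n:ℝ) ^ (-α) := e2
          _ ≤ C * (2 ^ α * ((((0:ℕ):ℝ) + 1) / ((n:ℝ) + 1)) ^ α) :=
              mul_le_mul_of_nonneg_left e6 hC
          _ = (C * 2 ^ α) * ((((0:ℕ):ℝ) + 1) / ((n:ℝ) + 1)) ^ α := by ring
          _ ≤ _ := mul_le_mul_of_nonneg_right ((le_max_left _ _).trans (le_max_right _ _)) hr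
  · have hn : 1 ≤ n := le_trans hm hmn
    have hm0 : (0:ℝ) < m := by exact_mod_cast hm
    have hn0 : (0:ℝ) < n := by exact_mod_cast hn
    have hm1 : (1:ℝ) ≤ m := by exact_mod_cast hm
    have hmn' : (m:ℝ) ≤ n := by exact_mod_cast hmn
    obtain ⟨e1, e2⟩ := h1 m n hm hmn
    have e3 : ((m:ℝ) / n) ^ α ≤ (((m:ℝ) + 1) / (n + 1)) ^ α := by
      apply Real.rpow_le_rpow (by positivity) _ hα.le
      rw [div_le_div_iff₀ hn0 hn1]
      nlinarith
    have e4 : (((m:ℝ) + 1) / (n + 1)) ^ α ≤ 2 ^ α * ((m:ℝ) / n) ^ α := by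
      rw [← Real.mul_rpow (by norm_num) (by positivity)]
      apply Real.rpow_le_rpow (by positivity) _ hα.le
      rw [mul_div_assoc', div_le_div_iff₀ hn1 hn0]
      nlinarith
    constructor
    · calc _ ≤ (k / 2 ^ α) * (((m:ℝ) + 1) / (n + 1)) ^ α :=
            mul_le_mul_of_nonneg_right ((min_le_right _ _).trans (min_le_right _ _)) hr
        _ ≤ (k / 2 ^ α) * (2 ^ α * ((m:ℝ) / n) ^ α) :=
            mul_le_mul_of_nonneg_left e4 (by positivity)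
        _ = k * ((m:ℝ) / n) ^ α := by field_simp
        _ ≤ _ := e1
    · calc _ ≤ K * ((m:ℝ) / n) ^ α := e2
        _ ≤ K * (((m:ℝ) + 1) / (n + 1)) ^ α := mul_le_mul_of_nonneg_left e3 hK
        _ ≤ _ := mul_le_mul_of_nonneg_right ((le_max_right _ _).trans (le_max_right _ _)) hr

/-- The exponent of `pi1` from the winding probabilities. -/
theorem pi1_exponent (hX : CrossBound) {α : ℝ} (hα : 0 < α) {w : ℕ → ℝ}
    (hlim : ∀ n : ℕ, 1 ≤ n → Tendsto (fun M : ℕ => Cyl.pWrap n M) atTop (𝓝 (w n)))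
    (hw : ∃ c C : ℝ, 0 < c ∧ ∀ n : ℕ, 1 ≤ n → c * (n:ℝ) ^ (-α) ≤ w n ∧
      w n ≤ C * (n:ℝ) ^ (-α)) :
    ∃ c C : ℝ, 0 < c ∧ ∀ n : ℕ, 1 ≤ n → c * (n:ℝ) ^ (-α) ≤ pi1 n ∧
        pi1 n ≤ C * (n:ℝ) ^ (-α) := by
  obtain ⟨c, C, hc, hw⟩ := hw
  obtain ⟨c0, hc0, h0⟩ := Cyl.wind_lower hX
  have h3α : (0:ℝ) < 3 ^ α := Real.rpow_pos_of_pos (by norm_num) _
  refine ⟨c / 3 ^ α, C / c0, by positivity, fun n hn => ⟨?_, ?_⟩⟩
  · have hn0 : (0:ℝ) < n := by exact_mod_cast hn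
    have h1 : w (2 * n + 1) ≤ pi1 n := by
      apply le_of_tendsto (hlim (2 * n + 1) (by omega))
      filter_upwards [eventually_ge_atTop (2 * n + 1)] with M hM
      exact Cyl.wind_upper le_rfl hM
    refine le_trans ?_ ((hw (2 * n + 1) (by omega)).1.trans h1)
    rw [div_mul_eq_mul_div, mul_div_assoc]
    apply mul_le_mul_of_nonneg_left _ hc.le
    have hn1 : (1:ℝ) ≤ n := by exact_mod_cast hn
    have e1 : ((3:ℝ) * n) ^ (-α) ≤ (((2 * n + 1 : ℕ) : ℝ)) ^ (-α) := by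
      apply Real.rpow_le_rpow_of_nonpos (by positivity) _ (by linarith)
      push_cast
      linarith
    have e2 : ((3:ℝ) * n) ^ (-α) = (n:ℝ) ^ (-α) / 3 ^ α := by
      rw [Real.mul_rpow (by norm_num) hn0.le, Real.rpow_neg (by norm_num : (0:ℝ) ≤ 3)]
      ring
    rw [← e2]
    exact e1
  · have h1 : c0 * pi1 n ≤ w n := by
      apply ge_of_tendsto (hlim n hn)
      filter_upwards [eventually_ge_atTop (2 * n)] with M hM
      exact h0 n M hn hM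
    have h2 := h1.trans (hw n hn).2
    rw [div_mul_eq_mul_div, le_div_iff₀ hc0]
    linarith

/-- **The one-arm exponent and the crossing exponents of annuli.** -/
theorem bulk_exponent (hX : CrossBound) {α : ℝ} (hα : 0 < α) {w : ℕ → ℝ}
    (hlim : ∀ n : ℕ, 1 ≤ n → Tendsto (fun M : ℕ => Cyl.pWrap n M) atTop (𝓝 (w n)))
    (hw : ∃ c C : ℝ, 0 < c ∧ ∀ n : ℕ, 1 ≤ n → c * (n:ℝ) ^ (-α) ≤ w n ∧
      w n ≤ C * (n:ℝ) ^ (-α)) :
    ∃ c C : ℝ, 0 < c ∧ ∀ m n : ℕ, m ≤ n →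
      c * (((m:ℝ) + 1) / (n + 1)) ^ α ≤ crF m n ∧
      crF m n ≤ C * (((m:ℝ) + 1) / (n + 1)) ^ α := by
  obtain ⟨c, C, hc, h1⟩ := pi1_exponent hX hα hlim hw
  obtain ⟨k, K, hk, h3⟩ := crossing_full hX hα ⟨c, C, hc, h1⟩
  have hC : 0 ≤ C := by
    obtain ⟨e1, e2⟩ := h1 1 le_rfl
    simp only [Nat.cast_one, Real.one_rpow, mul_one] at e1 e2
    linarith
  have hK : 0 ≤ K := by
    obtain ⟨e2, e3⟩ := h3 1 1 le_rfl le_rfl
    simp only [Nat.cast_one, div_one, Real.one_rpow, mul_one] at e2 e3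
    linarith
  have h2α : (0:ℝ) < 2 ^ α := Real.rpow_pos_of_pos (by norm_num) _
  exact ⟨_, _, lt_min one_pos (lt_min hc (by positivity)), fun m n hmn =>
    uniform_form' hα hc hC hk hK crF_zero_zero (fun n hn => by rw [crF_zero]; exact h1 n hn)
      h3 hmn⟩

end H47Perc
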