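import Pool.Agent.Helper57.Perc.AnnQ

/-!
Quasi-multiplicativity for the full plane one-arm probability.
-/

set_option autoImplicit false

namespace H47Perc
open Finset
open Pool.Agent.Helper69.RSW (P P_mono P_map P_restrict P_congr Dep Up harris P_nonneg P_indep
  P_or_le P_le_one)

/-- the annulus of the points with `m ≤ max |x| |y| ≤ n` -/
noncomputable def fullAnn (m n : ℤ) : Finset (ℤ × ℤ) :=
  (box (-n) n (-n) n).filter (fun z => m ≤ nrm z)

/-- crossing probability of the annulus -/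
noncomputable def crF (m n : ℕ) : ℝ := perc half (fullAnn m n) (Cross m n)

/-- the full-plane one-arm probability -/
noncomputable def pi1 (n : ℕ) : ℝ := armP (box (-(n:ℤ)) n (-n) n) (0, 0) n

lemma mem_fullAnn {m n : ℤ} {z : ℤ × ℤ} : z ∈ fullAnn m n ↔ m ≤ nrm z ∧ nrm z ≤ n := by
  unfold fullAnn
  rw [mem_filter, mem_box, nrm_le, abs_le, abs_le]
  tauto

/-- the four crossings of the circuit in the annulus `m ≤ |z| ≤ 2m` -/
def Circ4 (m : ℤ) (ω : Finset (Sym2 (ℤ × ℤ))) : Prop :=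
  (BT (-2 * m) (-m) (-2 * m) (2 * m) (ω ∩ edgesIn (box (-2 * m) (-m) (-2 * m) (2 * m))) ∧
    BT m (2 * m) (-2 * m) (2 * m) (ω ∩ edgesIn (box m (2 * m) (-2 * m) (2 * m)))) ∧
  (LR (-2 * m) (2 * m) (-2 * m) (-m) (ω ∩ edgesIn (box (-2 * m) (2 * m) (-2 * m) (-m))) ∧
    LR (-2 * m) (2 * m) m (2 * m) (ω ∩ edgesIn (box (-2 * m) (2 * m) m (2 * m))))

lemma circ4_up (m : ℤ) : Up (Circ4 m) :=
  ((up_inter (up_BT _ _ _ _) _).and (up_inter (up_BT _ _ _ _) _)).and
    ((up_inter (up_LR _ _ _ _) _).and (up_inter (up_LR _ _ _ _) _))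

/-- The circuit: a barrier in every domain containing the box; with the four base points. -/
lemma barrier_full' {D : Finset (ℤ × ℤ)} {m : ℤ} (hm : 1 ≤ m)
    (hQD : box (-2 * m) (2 * m) (-2 * m) (2 * m) ⊆ D) {ω : Finset (Sym2 (ℤ × ℤ))}
    (hC : Circ4 m ω) :
    ∃ xr xr' yt yt' : ℤ, m ≤ xr ∧ xr ≤ 2 * m ∧ m ≤ yt ∧ yt ≤ 2 * m ∧
      Joined (ω ∩ edgesIn (box m (2 * m) (-2 * m) (2 * m))) (xr, -2 * m) (xr', 2 * m) ∧
      Joined (ω ∩ edgesIn (box (-2 * m) (2 * m) m (2 * m))) (-2 * m, yt) (2 * m, yt') ∧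
      Joined (ω ∩ edgesIn D) (xr, -2 * m) (-2 * m, yt) ∧
      ∀ u z : ℤ × ℤ, nrm u ≤ m → 2 * m ≤ nrm z →
      Joined (ω ∩ edgesIn D) u z → Joined (ω ∩ edgesIn D) (xr, -2 * m) u := by
  classical
  obtain ⟨⟨hL, hR⟩, ⟨hB, hT⟩⟩ := hC
  obtain ⟨yb, yb', b1, b2, b3, b4, hB⟩ := hB
  obtain ⟨yt, yt', t1, t2, t3, t4, hT⟩ := hT
  obtain ⟨xl, xl', l1, l2, l3, l4, hL⟩ := hL
  obtain ⟨xr, xr', r1, r2, r3, r4, hR⟩ := hR
  set Q := box (-2 * m) (2 * m) (-2 * m) (2 * m) with hQ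
  have sR : box m (2 * m) (-2 * m) (2 * m) ⊆ D :=
    (box_mono (by omega) le_rfl le_rfl le_rfl).trans hQD
  have sL : box (-2 * m) (-m) (-2 * m) (2 * m) ⊆ D :=
    (box_mono le_rfl (by omega) le_rfl le_rfl).trans hQD
  have sT : box (-2 * m) (2 * m) m (2 * m) ⊆ D :=
    (box_mono le_rfl le_rfl (by omega) le_rfl).trans hQD
  have sB : box (-2 * m) (2 * m) (-2 * m) (-m) ⊆ D :=
    (box_mono le_rfl le_rfl le_rfl (by omega)).trans hQD
  have vR : ((xr, -2 * m) : ℤ × ℤ) ∈ box m (2 * m) (-2 * m) (2 * m) := by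
    rw [mem_box]; simp only; omega
  have vL : ((xl, -2 * m) : ℤ × ℤ) ∈ box (-2 * m) (-m) (-2 * m) (2 * m) := by
    rw [mem_box]; simp only; omega
  have vT : ((-2 * m, yt) : ℤ × ℤ) ∈ box (-2 * m) (2 * m) m (2 * m) := by
    rw [mem_box]; simp only; omega
  have vB : ((-2 * m, yb) : ℤ × ℤ) ∈ box (-2 * m) (2 * m) (-2 * m) (-m) := by
    rw [mem_box]; simp only; omega
  have rT : ∀ w ∈ box (-2 * m) (2 * m) m (2 * m), -2 * m ≤ w.2 ∧ w.2 ≤ 2 * m := by
    intro w hw; rw [mem_box] at hw; omega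
  have rB : ∀ w ∈ box (-2 * m) (2 * m) (-2 * m) (-m), -2 * m ≤ w.2 ∧ w.2 ≤ 2 * m := by
    intro w hw; rw [mem_box] at hw; omega
  have c1 : Joined (ω ∩ edgesIn D) (xr, -2 * m) (-2 * m, yt) :=
    vcross (D := D) (fun v hv hv' => absurd (sR hv) hv') hR (sR vR) vR (by omega) sT hT vT rT
      (by simp only; omega) (by simp only; omega)
  have c2 : Joined (ω ∩ edgesIn D) (xr, -2 * m) (-2 * m, yb) :=
    vcross (D := D) (fun v hv hv' => absurd (sR hv) hv') hR (sR vR) vR (by omega) sB hB vB rB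
      (by simp only; omega) (by simp only; omega)
  have c3 : Joined (ω ∩ edgesIn D) (xl, -2 * m) (-2 * m, yt) :=
    vcross (D := D) (fun v hv hv' => absurd (sL hv) hv') hL (sL vL) vL (by omega) sT hT vT rT
      (by simp only; omega) (by simp only; omega)
  refine ⟨xr, xr', yt, yt', r1, r2, t1, t2, hR, hT, c1, fun u z hu hz hj => ?_⟩
  have huD : u ∈ D := by
    apply mem_of_joined_ne inter_subset_right hj
    rintro rfl
    omega
  have huQ : u ∈ Q := by
    rw [nrm_le, abs_le, abs_le] at hu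
    rw [hQ, mem_box]
    omega
  obtain ⟨w, hw1, hw2⟩ : ∃ w : ℤ × ℤ, Joined (ω ∩ edgesIn Q) u w ∧
      (w.1 = -2 * m ∨ w.1 = 2 * m ∨ w.2 = -2 * m ∨ w.2 = 2 * m) := by
    have eQ : Q ∩ D = Q := inter_eq_left.2 hQD
    rcases joined_trunc (D := Q) hj huQ with h1 | ⟨w, w', h1, h2, h3, h4⟩
    · rw [eQ] at h1
      have hzQ := mem_of_joined inter_subset_right h1 huQ
      rw [hQ, mem_box] at hzQ
      refine ⟨z, h1, ?_⟩
      rw [le_nrm] at hz
      rcases abs_cases z.1 with h5 | h5 <;> rcases abs_cases z.2 with h6 | h6 <;> omega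
    · rw [eQ] at h4
      have hwQ := mem_of_joined inter_subset_right h4 huQ
      rw [hQ, mem_box] at hwQ h1
      refine ⟨w, h4, ?_⟩
      rcases adj_cases h3 with h | h | h | h <;> rw [h] at h1 <;> dsimp only at h1 <;> omega
  have hwQ : w ∈ Q := mem_of_joined inter_subset_right hw1 huQ
  have hjD : Joined (ω ∩ edgesIn D) u w :=
    joined_mono (inter_subset_inter_left (edgesIn_mono hQD)) hw1
  have hrows : ∀ v ∈ Q, -2 * m ≤ v.2 ∧ v.2 ≤ 2 * m := by
    intro v hv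
    rw [hQ, mem_box] at hv
    omega
  have hcols : ∀ v ∈ Q, -2 * m ≤ v.1 ∧ v.1 ≤ 2 * m := by
    intro v hv
    rw [hQ, mem_box] at hv
    omega
  rw [nrm_le, abs_le, abs_le] at hu
  rcases hw2 with h | h | h | h
  · have d1 := vcross (D := D) (fun v hv hv' => absurd (sL hv) hv') hL (sL vL) vL (by omega)
      (T := Q) hQD (joined_symm hw1) hwQ hrows (by omega) (by omega)
    exact joined_trans c1 (joined_trans (joined_symm c3) (joined_trans d1 (joined_symm hjD)))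
  · exact vcross (D := D) (fun v hv hv' => absurd (sR hv) hv') hR (sR vR) vR (by omega)
      (T := Q) hQD hw1 huQ hrows (by omega) (by omega)
  · have d1 := hcross (D := D) (fun v hv hv' => absurd (sB hv) hv') hB (sB vB) vB
      (T := Q) hQD hw1 huQ hcols (by omega) (by omega) (by omega)
    exact joined_trans c2 d1
  · have d1 := hcross (D := D) (fun v hv hv' => absurd (sT hv) hv') hT (sT vT) vT
      (T := Q) hQD (joined_symm hw1) hwQ hcols (by omega) (by omega) (by omega)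
    exact joined_trans c1 (joined_trans d1 (joined_symm hjD))

lemma barrier_full {D : Finset (ℤ × ℤ)} {m : ℤ} (hm : 1 ≤ m)
    (hQD : box (-2 * m) (2 * m) (-2 * m) (2 * m) ⊆ D) {ω : Finset (Sym2 (ℤ × ℤ))}
    (hC : Circ4 m ω) :
    ∃ κ : ℤ × ℤ, ∀ u z : ℤ × ℤ, nrm u ≤ m → 2 * m ≤ nrm z →
      Joined (ω ∩ edgesIn D) u z → Joined (ω ∩ edgesIn D) κ u := by
  obtain ⟨xr, xr', yt, yt', _, _, _, _, _, _, _, h⟩ := barrier_full' hm hQD hC
  exact ⟨_, h⟩

/-- the circuit has probability bounded below -/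
lemma circ4_ge {c : ℝ} (hc : 0 < c) (hRSW : ∀ n : ℕ, 1 ≤ n → c ≤ pLR (6 * n) n) {m : ℕ}
    (hm : 1 ≤ m) {S : Finset (ℤ × ℤ)}
    (hS : box (-2 * (m:ℤ)) (2 * m) (-2 * m) (2 * m) ⊆ S) :
    c ^ 4 ≤ perc half S (Circ4 m) := by
  set L : Finset (Sym2 (ℤ × ℤ)) → Prop := fun ω => BT (-2 * m) (-m) (-2 * m) (2 * m)
      (ω ∩ edgesIn (box (-2 * m) (-m) (-2 * m) (2 * m))) with hL
  set R : Finset (Sym2 (ℤ × ℤ)) → Prop := fun ω => BT m (2 * m) (-2 * m) (2 * m)
      (ω ∩ edgesIn (box m (2 * m) (-2 * m) (2 * m))) with hR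
  set B : Finset (Sym2 (ℤ × ℤ)) → Prop := fun ω => LR (-2 * m) (2 * m) (-2 * m) (-m)
      (ω ∩ edgesIn (box (-2 * m) (2 * m) (-2 * m) (-m))) with hB
  set T : Finset (Sym2 (ℤ × ℤ)) → Prop := fun ω => LR (-2 * m) (2 * m) m (2 * m)
      (ω ∩ edgesIn (box (-2 * m) (2 * m) m (2 * m))) with hT
  have pL : c ≤ perc half S L := by
    have e : perc half S L = perc half (box (-2 * m) (-m) (-2 * m) (2 * m))
        (BT (-2 * m) (-m) (-2 * m) (2 * m)) :=
      perc_restrict ((box_mono (by omega) (by omega) (by omega) (by omega)).trans hS) _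
    rw [e, perc_BT, show (2 * (m:ℤ) - -2 * m) = 4 * m by ring,
      show (-(m:ℤ) - -2 * m) = m by ring]
    exact (hRSW m hm).trans (pLR_anti (by omega) (by omega) _)
  have pR : c ≤ perc half S R := by
    have e : perc half S R = perc half (box m (2 * m) (-2 * m) (2 * m))
        (BT m (2 * m) (-2 * m) (2 * m)) :=
      perc_restrict ((box_mono (by omega) (by omega) (by omega) (by omega)).trans hS) _
    rw [e, perc_BT, show (2 * (m:ℤ) - -2 * m) = 4 * m by ring,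
      show (2 * (m:ℤ) - m) = m by ring]
    exact (hRSW m hm).trans (pLR_anti (by omega) (by omega) _)
  have pB : c ≤ perc half S B := by
    have e : perc half S B = perc half (box (-2 * m) (2 * m) (-2 * m) (-m))
        (LR (-2 * m) (2 * m) (-2 * m) (-m)) :=
      perc_restrict ((box_mono (by omega) (by omega) (by omega) (by omega)).trans hS) _
    rw [e, perc_LR, show (2 * (m:ℤ) - -2 * m) = 4 * m by ring,
      show (-(m:ℤ) - -2 * m) = m by ring]
    exact (hRSW m hm).trans (pLR_anti (by omega) (by omega) _)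
  have pT : c ≤ perc half S T := by
    have e : perc half S T = perc half (box (-2 * m) (2 * m) m (2 * m))
        (LR (-2 * m) (2 * m) m (2 * m)) :=
      perc_restrict ((box_mono (by omega) (by omega) (by omega) (by omega)).trans hS) _
    rw [e, perc_LR, show (2 * (m:ℤ) - -2 * m) = 4 * m by ring,
      show (2 * (m:ℤ) - m) = m by ring]
    exact (hRSW m hm).trans (pLR_anti (by omega) (by omega) _)
  have uL : Up L := up_inter (up_BT _ _ _ _) _
  have uR : Up R := up_inter (up_BT _ _ _ _) _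
  have uB : Up B := up_inter (up_LR _ _ _ _) _
  have uT : Up T := up_inter (up_LR _ _ _ _) _
  have h1 := perc_harris S uL uR
  have h2 := perc_harris S uB uT
  have h3 := perc_harris S (uL.and uR) (uB.and uT)
  have s1 : c * c ≤ perc half S (fun ω => L ω ∧ R ω) :=
    (mul_le_mul pL pR hc.le (perc_half_nonneg _ _)).trans h1
  have s2 : c * c ≤ perc half S (fun ω => B ω ∧ T ω) :=
    (mul_le_mul pB pT hc.le (perc_half_nonneg _ _)).trans h2
  have s3 := (mul_le_mul s1 s2 (by positivity) (perc_half_nonneg _ _)).trans h3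
  calc c ^ 4 = c * c * (c * c) := by ring
    _ ≤ _ := s3

lemma ball_zero_box (k : ℤ) : ball (0, 0) k = box (-k) k (-k) k := by
  unfold ball; simp

lemma pi1_eq {n : ℕ} {S : Finset (ℤ × ℤ)} (hS : box (-(n:ℤ)) n (-n) n ⊆ S) :
    pi1 n = armP S (0, 0) n := by
  unfold pi1
  rw [← perc_arm (T := S) (S := box (-(n:ℤ)) n (-n) n) (0, 0) n (inter_subset_left.trans hS)]
  unfold armP
  congr 1
  funext ω
  unfold Arm
  rw [ball_zero_box, inter_self, inter_eq_right.2 hS]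

lemma pi1_anti {n n' : ℕ} (h : n ≤ n') : pi1 n' ≤ pi1 n := by
  rw [pi1_eq (n := n') (S := box (-(n':ℤ)) n' (-n') n') subset_rfl,
    pi1_eq (n := n) (S := box (-(n':ℤ)) n' (-n') n')
      (box_mono (by omega) (by omega) (by omega) (by omega))]
  exact armP_anti (by omega) (by omega)

lemma pi1_nonneg (n : ℕ) : 0 ≤ pi1 n := perc_half_nonneg _ _
lemma pi1_le_one (n : ℕ) : pi1 n ≤ 1 := perc_half_le_one _ _

/-- quasi-multiplicativity in the plane -/
theorem crF_mul_le {c : ℝ} (hc : 0 < c)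
    (hRSW : ∀ n : ℕ, 1 ≤ n → c ≤ pLR (6 * n) n) {m n : ℕ} (hm : 1 ≤ m) (hmn : 4 * m ≤ n) :
    crF m n * pi1 (4 * m) * c ^ 4 ≤ pi1 n := by
  classical
  set S := box (-(n:ℤ)) n (-n) n with hS
  have hAD : fullAnn m n ⊆ S := by
    unfold fullAnn; exact filter_subset _ _
  set X : Finset (Sym2 (ℤ × ℤ)) → Prop :=
    fun ω => Cross m n (ω ∩ edgesIn (fullAnn m n)) with hX
  set A : Finset (Sym2 (ℤ × ℤ)) → Prop := Arm S (0, 0) (4 * m : ℕ) with hA
  have pX : perc half S X = crF m n := perc_restrict hAD _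
  have pA : perc half S A = pi1 (4 * m) := by
    rw [hA, pi1_eq (S := S) (box_mono (by omega) (by omega) (by omega) (by omega))]
    rfl
  have hQ : box (-2 * (m:ℤ)) (2 * m) (-2 * m) (2 * m) ⊆ S :=
    box_mono (by omega) (by omega) (by omega) (by omega)
  have pC := circ4_ge hc hRSW hm hQ
  have uX : Up X := up_inter (cross_up _ _) _
  have uA : Up A := arm_up _ _ _
  have h1 := perc_harris S uX uA
  have h4 := perc_harris S (uX.and uA) (circ4_up (m:ℤ))
  have h5 : perc half S (fun ω => (X ω ∧ A ω) ∧ Circ4 m ω) ≤ pi1 n := by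
    rw [pi1_eq (n := n) (S := S) subset_rfl]
    apply perc_half_mono
    rintro ω _ ⟨⟨⟨u, z, x1, x2, x3⟩, ⟨v, a1, a2⟩⟩, g⟩
    obtain ⟨κ, hκ⟩ := barrier_full (m := (m:ℤ)) (by omega) hQ g
    have x3' : Joined (ω ∩ edgesIn S) u z :=
      joined_mono (inter_subset_inter_left (edgesIn_mono hAD)) x3
    have a2' : Joined (ω ∩ edgesIn S) (0, 0) v :=
      joined_mono (inter_subset_inter_left (edgesIn_mono inter_subset_left)) a2
    have k1 := hκ u z (by omega) (by omega) x3'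
    have k2 := hκ (0, 0) v (by rw [nrm_le]; simp) (by
      unfold AtDist at a1
      rw [le_nrm]
      rw [sub_zero, sub_zero] at a1
      push_cast at a1
      omega) a2'
    have k3 : Joined (ω ∩ edgesIn S) (0, 0) z :=
      joined_trans (joined_symm k2) (joined_trans k1 x3')
    apply arm_of_joined (by omega) k3
    rw [sub_zero, sub_zero, ← le_nrm]
    omega
  have n1 : 0 ≤ perc half S X := perc_half_nonneg _ _
  have n2 : 0 ≤ perc half S A := perc_half_nonneg _ _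
  calc crF m n * pi1 (4 * m) * c ^ 4
      = (perc half S X * perc half S A) * c ^ 4 := by rw [pX, pA]
    _ ≤ perc half S (fun ω => X ω ∧ A ω) * perc half S (Circ4 m) :=
        mul_le_mul h1 pC (by positivity) (perc_half_nonneg _ _)
    _ ≤ _ := h4.trans h5

lemma fullAnn_eq (m n : ℤ) : annPart (box (-n) n (-n) n) m n = fullAnn m n := by
  ext z
  rw [mem_annPart, mem_fullAnn]
  have e : z ∈ box (-n) n (-n) n ↔ nrm z ≤ n := by
    rw [mem_box, nrm_le, abs_le, abs_le]; tauto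
  rw [e]
  tauto

theorem pi1_le_mul {m n : ℕ} (hm : 1 ≤ m) (hmn : m ≤ n) :
    pi1 n ≤ pi1 (m - 1) * crF m n := by
  have h := armP_le_mul (S := box (-(n:ℤ)) n (-n) n) (m := m) (n := n) (by omega) (by omega)
  rw [fullAnn_eq] at h
  rw [pi1_eq (n := n) (S := box (-(n:ℤ)) n (-n) n) subset_rfl,
    pi1_eq (n := m - 1) (S := box (-(n:ℤ)) n (-n) n)
      (box_mono (by omega) (by omega) (by omega) (by omega)),
    show ((m - 1 : ℕ) : ℤ) = m - 1 by omega]
  exact h

lemma crF_nonneg (m n : ℕ) : 0 ≤ crF m n := perc_half_nonneg _ _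
lemma crF_le_one (m n : ℕ) : crF m n ≤ 1 := perc_half_le_one _ _

/-- **Crossing probabilities of annuli**, from the one-arm exponent. -/
theorem crossing_full (hX : CrossBound) {α : ℝ} (hα : 0 < α)
    (hE : ∃ c C : ℝ, 0 < c ∧ ∀ n : ℕ, 1 ≤ n → c * (n:ℝ) ^ (-α) ≤ pi1 n ∧
        pi1 n ≤ C * (n:ℝ) ^ (-α)) :
    ∃ k K : ℝ, 0 < k ∧ ∀ m n : ℕ, 1 ≤ m → m ≤ n →
      k * ((m:ℝ) / n) ^ α ≤ crF m n ∧ crF m n ≤ K * ((m:ℝ) / n) ^ α := by
  obtain ⟨c, C, hc, h1⟩ := hE
  obtain ⟨r, hr, hRSW⟩ := hX 6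
  have hRSW' : ∀ n : ℕ, 1 ≤ n → r ≤ pLR (6 * n) n := fun n hn => by exact_mod_cast hRSW n hn
  have hC : 0 < C := by
    obtain ⟨e1, e2⟩ := h1 1 le_rfl
    simp only [Nat.cast_one, Real.one_rpow, mul_one] at e1 e2
    linarith
  obtain ⟨k1, K1, hk1, hH⟩ := exponent_transfer (α := α) (c1 := c) (C1 := C) (c := r ^ 4)
    hα hc hC (by positivity)
  exact ⟨k1, K1, hk1, hH pi1 crF h1 (pi1_le_one _)
      (fun m n => ⟨crF_nonneg _ _, crF_le_one _ _⟩)
      (fun m n hm hmn => pi1_le_mul hm hmn)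
      (fun m n hm hmn => crF_mul_le hr hRSW' hm hmn)⟩

end H47Perc
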