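import Pool.Agent.Helper92.Bulk.AnnFull
import Pool.Agent.Helper46.RSW.RSW

/-!
The one-arm probability in the plane and the probability that the cluster of a vertex winds around
the diagonal cylinder `ℤ² / (n,-n)`.
-/

set_option autoImplicit false

namespace H47Perc
open Finset
open Pool.Agent.Helper69.RSW (P P_mono P_map P_restrict P_congr Dep Up harris P_nonneg P_indep
  P_or_le P_le_one)

namespace Cyl

/-- translation by `k` periods -/
def per (n : ℕ) (k : ℤ) : ℤ × ℤ ≃ ℤ × ℤ := transl (k * n, -(k * n))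

lemma per_apply (n : ℕ) (k : ℤ) (z : ℤ × ℤ) : per n k z = (z.1 + k * n, z.2 + -(k * n)) := rfl

lemma per_iso (n : ℕ) (k : ℤ) : IsIso (per n k) := transl_iso _

/-- smallest first coordinate of the endpoints -/
def xm (e : Sym2 (ℤ × ℤ)) : ℤ :=
  Sym2.lift ⟨fun u v => min u.1 v.1, fun _ _ => min_comm _ _⟩ e

/-- smallest height of the endpoints -/
def hm (e : Sym2 (ℤ × ℤ)) : ℤ :=
  Sym2.lift ⟨fun u v => min (u.1 + u.2) (v.1 + v.2), fun _ _ => min_comm _ _⟩ e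

lemma xm_mk (u v : ℤ × ℤ) : xm s(u, v) = min u.1 v.1 := rfl
lemma hm_mk (u v : ℤ × ℤ) : hm s(u, v) = min (u.1 + u.2) (v.1 + v.2) := rfl

lemma xm_per (n : ℕ) (k : ℤ) (e : Sym2 (ℤ × ℤ)) : xm (emb (per n k) e) = xm e + k * n := by
  induction e using Sym2.ind with
  | _ u v =>
    rw [emb_mk, xm_mk, xm_mk, per_apply, per_apply]
    exact min_add_add_right _ _ _

lemma hm_per (n : ℕ) (k : ℤ) (e : Sym2 (ℤ × ℤ)) : hm (emb (per n k) e) = hm e := by
  induction e using Sym2.ind with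
  | _ u v =>
    rw [emb_mk, hm_mk, hm_mk, per_apply, per_apply]
    have h1 : u.1 + k * n + (u.2 + -(k * n)) = u.1 + u.2 := by ring
    have h2 : v.1 + k * n + (v.2 + -(k * n)) = v.1 + v.2 := by ring
    simp only
    rw [h1, h2]

lemma per_per (n : ℕ) (k l : ℤ) (z : ℤ × ℤ) : per n k (per n l z) = per n (k + l) z := by
  simp only [per_apply]
  ext <;> simp only <;> ring

lemma emb_per_per (n : ℕ) (k l : ℤ) (e : Sym2 (ℤ × ℤ)) :
    emb (per n k) (emb (per n l) e) = emb (per n (k + l)) e := by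
  induction e using Sym2.ind with
  | _ u v => rw [emb_mk, emb_mk, emb_mk, per_per, per_per]

lemma per_zero (n : ℕ) (z : ℤ × ℤ) : per n 0 z = z := by
  simp [per_apply]

lemma emb_per_zero (n : ℕ) (e : Sym2 (ℤ × ℤ)) : emb (per n 0) e = e := by
  induction e using Sym2.ind with
  | _ u v => rw [emb_mk, per_zero, per_zero]

/-- the representative of an edge in the fundamental domain -/
def rep (n : ℕ) (e : Sym2 (ℤ × ℤ)) : Sym2 (ℤ × ℤ) := emb (per n (-(xm e / n))) e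

lemma rep_per {n : ℕ} (hn : 1 ≤ n) (k : ℤ) (e : Sym2 (ℤ × ℤ)) :
    rep n (emb (per n k) e) = rep n e := by
  unfold rep
  rw [xm_per, emb_per_per]
  have : (xm e + k * n) / (n:ℤ) = xm e / n + k := Int.add_mul_ediv_right _ _ (by omega)
  rw [this]
  congr 2
  ring

lemma hm_rep (n : ℕ) (e : Sym2 (ℤ × ℤ)) : hm (rep n e) = hm e := hm_per _ _ _

lemma xm_rep (n : ℕ) (e : Sym2 (ℤ × ℤ)) : xm (rep n e) = xm e % n := by
  unfold rep
  rw [xm_per, Int.emod_def]
  ring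

lemma edge_emb {f : ℤ × ℤ ≃ ℤ × ℤ} (hf : IsIso f) (e : Sym2 (ℤ × ℤ)) :
    emb f e ∈ lattice.edgeSet ↔ e ∈ lattice.edgeSet := by
  induction e using Sym2.ind with
  | _ u v => rw [emb_mk, SimpleGraph.mem_edgeSet, SimpleGraph.mem_edgeSet]; exact hf u v

lemma edge_rep (n : ℕ) (e : Sym2 (ℤ × ℤ)) : rep n e ∈ lattice.edgeSet ↔ e ∈ lattice.edgeSet :=
  edge_emb (per_iso _ _) e

lemma edge_cases {e : Sym2 (ℤ × ℤ)} (he : e ∈ lattice.edgeSet) :
    ∃ x y : ℤ, e = s((x, y), (x + 1, y)) ∨ e = s((x, y), (x, y + 1)) := by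
  induction e using Sym2.ind with
  | _ u v =>
    rw [SimpleGraph.mem_edgeSet] at he
    obtain ⟨u1, u2⟩ := u
    rcases adj_cases he with h | h | h | h <;> subst h
    · exact ⟨u1, u2, Or.inr rfl⟩
    · exact ⟨u1, u2 - 1, Or.inr (by rw [Sym2.eq_swap]; simp)⟩
    · exact ⟨u1, u2, Or.inl rfl⟩
    · exact ⟨u1 - 1, u2, Or.inl (by rw [Sym2.eq_swap]; simp)⟩

lemma xm_h (x y : ℤ) : xm s((x, y), (x + 1, y)) = x := by
  rw [xm_mk]; exact min_eq_left (by simp only; omega)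
lemma xm_v (x y : ℤ) : xm s((x, y), (x, y + 1)) = x := by
  rw [xm_mk]; exact min_eq_left le_rfl
lemma hm_h (x y : ℤ) : hm s((x, y), (x + 1, y)) = x + y := by
  rw [hm_mk]; exact min_eq_left (by simp only; omega)
lemma hm_v (x y : ℤ) : hm s((x, y), (x, y + 1)) = x + y := by
  rw [hm_mk]; exact min_eq_left (by simp only; omega)

open Classical in
/-- the edges of the fundamental domain with heights between `a` and `b` -/
noncomputable def cylE (n : ℕ) (a b : ℤ) : Finset (Sym2 (ℤ × ℤ)) :=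
  (edgesIn (box 0 n (a - n) b)).filter (fun e => 0 ≤ xm e ∧ xm e < n ∧ a ≤ hm e ∧ hm e < b)

lemma mem_cylE {n : ℕ} {a b : ℤ} {e : Sym2 (ℤ × ℤ)} : e ∈ cylE n a b ↔
    e ∈ lattice.edgeSet ∧ 0 ≤ xm e ∧ xm e < n ∧ a ≤ hm e ∧ hm e < b := by
  unfold cylE
  rw [mem_filter]
  constructor
  · rintro ⟨h1, h2⟩
    refine ⟨?_, h2⟩
    induction e using Sym2.ind with
    | _ u v => exact (mem_edgesIn.1 h1).2.2
  · rintro ⟨h1, h2⟩
    refine ⟨?_, h2⟩
    obtain ⟨x, y, h | h⟩ := edge_cases h1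
    · subst h
      rw [xm_h, hm_h] at h2
      rw [mem_edgesIn, mem_box, mem_box]
      exact ⟨by simp only; omega, by simp only; omega, h1⟩
    · subst h
      rw [xm_v, hm_v] at h2
      rw [mem_edgesIn, mem_box, mem_box]
      exact ⟨by simp only; omega, by simp only; omega, h1⟩

/-- the periodic configuration, as a graph -/
def PG (n : ℕ) (ω : Finset (Sym2 (ℤ × ℤ))) : SimpleGraph (ℤ × ℤ) :=
  SimpleGraph.fromEdgeSet {e | e ∈ lattice.edgeSet ∧ rep n e ∈ ω}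

lemma PG_adj {n : ℕ} {ω : Finset (Sym2 (ℤ × ℤ))} {u v : ℤ × ℤ} :
    (PG n ω).Adj u v ↔ lattice.Adj u v ∧ rep n s(u, v) ∈ ω := by
  unfold PG
  rw [SimpleGraph.fromEdgeSet_adj]
  constructor
  · intro h
    exact ⟨h.1.1, h.1.2⟩
  · intro h
    exact ⟨⟨h.1, h.2⟩, h.1.ne⟩

/-- connection in the periodic configuration -/
def JP (n : ℕ) (ω : Finset (Sym2 (ℤ × ℤ))) (u v : ℤ × ℤ) : Prop := (PG n ω).Reachable u v

lemma jp_mono {n : ℕ} {ω ω' : Finset (Sym2 (ℤ × ℤ))} (h : ω ⊆ ω') {u v : ℤ × ℤ}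
    (hj : JP n ω u v) : JP n ω' u v := by
  refine SimpleGraph.Reachable.mono ?_ hj
  intro a b hab
  rw [PG_adj] at hab ⊢
  exact ⟨hab.1, h hab.2⟩

lemma jp_symm {n : ℕ} {ω : Finset (Sym2 (ℤ × ℤ))} {u v : ℤ × ℤ} (h : JP n ω u v) :
    JP n ω v u := SimpleGraph.Reachable.symm h

lemma jp_trans {n : ℕ} {ω : Finset (Sym2 (ℤ × ℤ))} {u v w : ℤ × ℤ} (h : JP n ω u v)
    (h' : JP n ω v w) : JP n ω u w := SimpleGraph.Reachable.trans h h'

lemma jp_per {n : ℕ} (hn : 1 ≤ n) {ω : Finset (Sym2 (ℤ × ℤ))} {u v : ℤ × ℤ} (k : ℤ)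
    (h : JP n ω u v) : JP n ω (per n k u) (per n k v) := by
  have key : ∀ a b, (PG n ω).Adj a b → (PG n ω).Adj (per n k a) (per n k b) := by
    intro a b hab
    rw [PG_adj] at hab ⊢
    refine ⟨(per_iso n k a b).2 hab.1, ?_⟩
    rw [← emb_mk, rep_per hn]
    exact hab.2
  exact h.map (⟨per n k, fun {a b} => key a b⟩ : PG n ω →g PG n ω)

open Classical in
/-- the part of the periodic configuration in the finite set `S` -/
noncomputable def pw (n : ℕ) (S : Finset (ℤ × ℤ)) (ω : Finset (Sym2 (ℤ × ℤ))) :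
    Finset (Sym2 (ℤ × ℤ)) := (edgesIn S).filter (fun e => rep n e ∈ ω)

lemma mem_pw {n : ℕ} {S : Finset (ℤ × ℤ)} {ω : Finset (Sym2 (ℤ × ℤ))} {e : Sym2 (ℤ × ℤ)} :
    e ∈ pw n S ω ↔ e ∈ edgesIn S ∧ rep n e ∈ ω := by
  unfold pw; rw [mem_filter]

lemma pw_sub (n : ℕ) (S : Finset (ℤ × ℤ)) (ω : Finset (Sym2 (ℤ × ℤ))) :
    pw n S ω ⊆ edgesIn S := by unfold pw; exact filter_subset _ _

lemma pw_mono (n : ℕ) (S : Finset (ℤ × ℤ)) {ω ω' : Finset (Sym2 (ℤ × ℤ))} (h : ω ⊆ ω') :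
    pw n S ω ⊆ pw n S ω' := by
  intro e he
  rw [mem_pw] at he ⊢
  exact ⟨he.1, h he.2⟩

lemma pw_inter {n : ℕ} {S T : Finset (ℤ × ℤ)} (h : T ⊆ S) (ω : Finset (Sym2 (ℤ × ℤ))) :
    pw n S ω ∩ edgesIn T = pw n T ω := by
  ext e
  rw [mem_inter, mem_pw, mem_pw]
  exact ⟨fun h' => ⟨h'.2, h'.1.2⟩, fun h' => ⟨⟨edgesIn_mono h h'.1, h'.2⟩, h'.1⟩⟩

lemma jp_of_joined {n : ℕ} {S : Finset (ℤ × ℤ)} {ω : Finset (Sym2 (ℤ × ℤ))} {u v : ℤ × ℤ}
    (h : Joined (pw n S ω) u v) : JP n ω u v := by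
  refine SimpleGraph.Reachable.mono ?_ h
  intro a b hab
  rw [SimpleGraph.fromEdgeSet_adj] at hab
  have h1 := hab.1
  rw [mem_coe, mem_pw, mem_edgesIn] at h1
  rw [PG_adj]
  exact ⟨h1.1.2.2, h1.2⟩

lemma pw_map {n : ℕ} (hn : 1 ≤ n) (S : Finset (ℤ × ℤ)) (ω : Finset (Sym2 (ℤ × ℤ))) (k : ℤ) :
    pw n (S.map (per n k).toEmbedding) ω = (pw n S ω).map (emb (per n k)) := by
  ext e
  rw [mem_pw, edgesIn_map (per_iso n k), mem_map, mem_map]
  constructor
  · rintro ⟨⟨e', h1, rfl⟩, h2⟩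
    rw [rep_per hn] at h2
    exact ⟨e', mem_pw.2 ⟨h1, h2⟩, rfl⟩
  · rintro ⟨e', h1, rfl⟩
    rw [mem_pw] at h1
    rw [rep_per hn]
    exact ⟨⟨e', h1.1, rfl⟩, h1.2⟩

/-! ### probabilities -/

/-- relabelling by an injection on a finite set -/
lemma P_image {E : Type*} [DecidableEq E] (F : Finset E) (f : E → E) (hf : Set.InjOn f F)
    (A : Finset E → Prop) : P (F.image f) (fun S => A (F.filter (fun e => f e ∈ S))) = P F A := by
  classical
  unfold P
  rw [card_image_of_injOn hf]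
  congr 2
  apply Finset.card_bij' (i := fun S _ => F.filter (fun e => f e ∈ S)) (j := fun S _ => S.image f)
  · intro S h
    simp only [mem_filter, mem_powerset] at h ⊢
    exact ⟨filter_subset _ _, h.2⟩
  · intro S h
    simp only [mem_filter, mem_powerset] at h ⊢
    refine ⟨image_subset_image h.1, ?_⟩
    have : F.filter (fun e => f e ∈ S.image f) = S := by
      ext e
      rw [mem_filter, mem_image]
      constructor
      · rintro ⟨h1, e', h2, h3⟩
        rwa [← hf (h.1 h2) h1 h3]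
      · intro h1
        exact ⟨h.1 h1, e, h1, rfl⟩
    rw [this]
    exact h.2
  · intro S h
    simp only [mem_filter, mem_powerset] at h
    ext e
    rw [mem_image]
    constructor
    · rintro ⟨e', h1, rfl⟩
      rw [mem_filter] at h1
      exact h1.2
    · intro h1
      obtain ⟨e', h2, h3⟩ := mem_image.1 (h.1 h1)
      exact ⟨e', mem_filter.2 ⟨h2, by rw [h3]; exact h1⟩, h3⟩
  · intro S h
    simp only [mem_filter, mem_powerset] at h
    ext e
    rw [mem_filter, mem_image]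
    constructor
    · rintro ⟨h1, e', h2, h3⟩
      rwa [← hf (h.1 h2) h1 h3]
    · intro h1
      exact ⟨h.1 h1, e, h1, rfl⟩

/-- a finite set that is embedded in the cylinder -/
def Emb (n : ℕ) (S : Finset (ℤ × ℤ)) : Prop := ∀ z ∈ S, ∀ k : ℤ, per n k z ∈ S → k = 0

lemma rep_injOn {n : ℕ} {S : Finset (ℤ × ℤ)} (hS : Emb n S) :
    Set.InjOn (rep n) (edgesIn S) := by
  intro e he e' he' h
  unfold rep at h
  have h1 : emb (per n (xm e' / n)) (emb (per n (-(xm e / n))) e) = e' := by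
    rw [h, emb_per_per, add_neg_cancel, emb_per_zero]
  rw [emb_per_per] at h1
  obtain ⟨k, hk⟩ : ∃ k : ℤ, xm e' / (n:ℤ) + -(xm e / n) = k := ⟨_, rfl⟩
  rw [hk] at h1
  have hk0 : k = 0 := by
    rw [← h1] at he'
    clear h1 hk h
    induction e using Sym2.ind with
    | _ u v =>
      rw [mem_coe, mem_edgesIn] at he
      rw [emb_mk, mem_coe, mem_edgesIn] at he'
      exact hS u he.1 k he'.1
  rw [hk0, emb_per_zero] at h1
  exact h1

lemma dep_pw {n : ℕ} {S : Finset (ℤ × ℤ)} (A : Finset (Sym2 (ℤ × ℤ)) → Prop) :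
    Dep ((edgesIn S).image (rep n)) (fun ω => A (pw n S ω)) := by
  classical
  intro ω
  have : pw n S ω = pw n S (ω ∩ (edgesIn S).image (rep n)) := by
    ext e
    rw [mem_pw, mem_pw, mem_inter]
    constructor
    · rintro ⟨h1, h2⟩
      exact ⟨h1, h2, mem_image_of_mem _ h1⟩
    · rintro ⟨h1, h2, _⟩
      exact ⟨h1, h2⟩
  simp only
  rw [← this]

lemma image_rep_sub {n : ℕ} (hn : 1 ≤ n) {S : Finset (ℤ × ℤ)} {a b : ℤ}
    (hS : ∀ z ∈ S, a ≤ z.1 + z.2 ∧ z.1 + z.2 ≤ b) :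
    (edgesIn S).image (rep n) ⊆ cylE n a b := by
  intro e he
  obtain ⟨e', h1, rfl⟩ := mem_image.1 he
  rw [mem_cylE, edge_rep, xm_rep, hm_rep]
  have hn0 : (0:ℤ) < n := by omega
  refine ⟨?_, Int.emod_nonneg _ hn0.ne', Int.emod_lt_of_pos _ hn0, ?_⟩
  · induction e' using Sym2.ind with
    | _ u v => exact (mem_edgesIn.1 h1).2.2
  · induction e' using Sym2.ind with
    | _ u v =>
      rw [mem_edgesIn] at h1
      have hu := hS u h1.1
      have hv := hS v h1.2.1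
      rw [hm_mk]
      refine ⟨le_min hu.1 hv.1, ?_⟩
      have h3 := adj_cases h1.2.2
      rw [min_lt_iff]
      rcases h3 with h | h | h | h <;> rw [h] at hv ⊢ <;> simp only at hv ⊢ <;> omega

/-- the law of the periodic configuration in an embedded set is percolation -/
theorem P_pw {n : ℕ} (hn : 1 ≤ n) {S : Finset (ℤ × ℤ)} (hE : Emb n S) {a b : ℤ}
    (hS : ∀ z ∈ S, a ≤ z.1 + z.2 ∧ z.1 + z.2 ≤ b) (A : Finset (Sym2 (ℤ × ℤ)) → Prop) :
    P (cylE n a b) (fun ω => A (pw n S ω)) = perc half S A := by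
  classical
  rw [P_restrict (image_rep_sub hn hS) (dep_pw A), Pool.Agent.Helper69.RSW.perc_half_eq]
  have h := P_image (edgesIn S) (rep n) (rep_injOn hE) A
  rw [← h]
  apply P_congr
  intro ω _
  have : pw n S ω = (edgesIn S).filter (fun e => rep n e ∈ ω) := by
    ext e; rw [mem_pw, mem_filter]
  rw [this]

/-- the probability that the cluster of `0` winds around the cylinder of circumference `n` with
heights between `-M` and `M` -/
noncomputable def pWrap (n M : ℕ) : ℝ :=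
  P (cylE n (-(M:ℤ)) M) (fun ω => JP n ω (0, 0) (n, -n))

lemma cylE_mono {n : ℕ} {a b a' b' : ℤ} (h : a' ≤ a) (h' : b ≤ b') :
    cylE n a b ⊆ cylE n a' b' := by
  intro e he
  rw [mem_cylE] at he ⊢
  exact ⟨he.1, he.2.1, he.2.2.1, by omega, by omega⟩

lemma up_JP (n : ℕ) (u v : ℤ × ℤ) : Up (fun ω => JP n ω u v) := fun _ _ h hj => jp_mono h hj

lemma pWrap_mono (n : ℕ) {M M' : ℕ} (h : M ≤ M') : pWrap n M ≤ pWrap n M' := by
  classical
  have hsub : cylE n (-(M:ℤ)) M ⊆ cylE n (-(M':ℤ)) M' := cylE_mono (by omega) (by omega)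
  have hd : Dep (cylE n (-(M:ℤ)) M)
      (fun ω => JP n (ω ∩ cylE n (-(M:ℤ)) M) (0, 0) ((n:ℤ), -(n:ℤ))) := by
    intro ω
    simp only [inter_assoc, inter_self]
  have h1 : pWrap n M = P (cylE n (-(M:ℤ)) M)
      (fun ω => JP n (ω ∩ cylE n (-(M:ℤ)) M) (0, 0) ((n:ℤ), -(n:ℤ))) := by
    unfold pWrap
    apply P_congr
    intro ω hω
    rw [inter_eq_left.2 hω]
  have h2 := P_restrict hsub hd
  rw [h1, ← h2]
  unfold pWrap
  apply P_mono
  intro ω _ hj
  exact jp_mono inter_subset_left hj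

lemma pWrap_le_one (n M : ℕ) : pWrap n M ≤ 1 := P_le_one _ _
lemma pWrap_nonneg (n M : ℕ) : 0 ≤ pWrap n M := P_nonneg _ _

end Cyl
end H47Perc
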