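import Pool.Agent.Helper92.Bulk.CylRSW

/-!
Comparison of the plane one-arm probability with the winding probability on the cylinder.
-/

set_option autoImplicit false

namespace H47Perc
open Finset
open Pool.Agent.Helper69.RSW (P P_mono P_map P_restrict P_congr Dep Up harris P_nonneg P_indep
  P_or_le P_le_one)

namespace Cyl

lemma up_pw {n : ℕ} {S : Finset (ℤ × ℤ)} {A : Finset (Sym2 (ℤ × ℤ)) → Prop} (hA : Up A) :
    Up (fun ω => A (pw n S ω)) := fun _ _ h h1 => hA _ _ (pw_mono n S h) h1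

/-- boxes of height less than `n` are embedded -/
lemma emb_box_h {n : ℕ} {a b c d : ℤ} (h : d - c < n) : Emb n (box a b c d) := by
  intro z hz k hk
  rw [mem_box] at hz
  rw [per_apply, mem_box] at hk
  simp only at hk
  have h1 : k * (n:ℤ) < n := by omega
  have h2 : -(n:ℤ) < k * n := by omega
  have hn : (0:ℤ) < n := by
    by_contra hcon
    have : (n:ℤ) = 0 := by omega
    rw [this] at h1
    omega
  have h3 : k < 1 := by
    by_contra hcon
    have : 1 ≤ k := by omega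
    nlinarith
  have h4 : -1 < k := by
    by_contra hcon
    have : k ≤ -1 := by omega
    nlinarith
  omega

/-- boxes of width less than `n` are embedded -/
lemma emb_box_v {n : ℕ} {a b c d : ℤ} (h : b - a < n) : Emb n (box a b c d) := by
  intro z hz k hk
  rw [mem_box] at hz
  rw [per_apply, mem_box] at hk
  simp only at hk
  have h1 : k * (n:ℤ) < n := by omega
  have h2 : -(n:ℤ) < k * n := by omega
  have hn : (0:ℤ) < n := by
    by_contra hcon
    have : (n:ℤ) = 0 := by omega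
    rw [this] at h1
    omega
  have h3 : k < 1 := by
    by_contra hcon
    have : 1 ≤ k := by omega
    nlinarith
  have h4 : -1 < k := by
    by_contra hcon
    have : k ≤ -1 := by omega
    nlinarith
  omega

/-- the deterministic part: an arm, a circuit, a horizontal and a vertical crossing -/
lemma wind_det {n m : ℕ} (hm : 1 ≤ m) (hnm : 4 * m < n) {ω : Finset (Sym2 (ℤ × ℤ))}
    (hA : Arm (box (-2 * (m:ℤ)) (2 * m) (-2 * m) (2 * m)) (0, 0) (2 * m)
      (pw n (box (-2 * (m:ℤ)) (2 * m) (-2 * m) (2 * m)) ω))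
    (hC : Circ4 m (pw n (box (-2 * (m:ℤ)) (2 * m) (-2 * m) (2 * m)) ω))
    (hH : LR (-2 * m) (n + 2 * m) (-m) m (pw n (box (-2 * (m:ℤ)) (n + 2 * m) (-m) m) ω))
    (hV : BT (n - m) (n + m) (-n - 2 * m) (2 * m)
      (pw n (box ((n:ℤ) - m) (n + m) (-n - 2 * m) (2 * m)) ω)) :
    JP n ω (0, 0) (n, -n) := by
  classical
  set Q := box (-2 * (m:ℤ)) (2 * m) (-2 * m) (2 * m) with hQ
  set H := box (-2 * (m:ℤ)) (n + 2 * m) (-m) m with hHdef
  set V := box ((n:ℤ) - m) (n + m) (-n - 2 * m) (2 * m) with hVdef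
  set D := box (-2 * (m:ℤ)) (n + 2 * m) (-n - 2 * m) (2 * m) with hD
  have hn1 : 1 ≤ n := by omega
  have sQ : Q ⊆ D := box_mono (by omega) (by omega) (by omega) (by omega)
  have sH : H ⊆ D := box_mono (by omega) (by omega) (by omega) (by omega)
  have sV : V ⊆ D := box_mono (by omega) (by omega) (by omega) (by omega)
  set ω' := pw n D ω with hω'
  have eQ : ω' ∩ edgesIn Q = pw n Q ω := pw_inter sQ ω
  have eH : ω' ∩ edgesIn H = pw n H ω := pw_inter sH ω
  have eV : ω' ∩ edgesIn V = pw n V ω := pw_inter sV ω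
  -- the circuit
  have hC' : Circ4 m ω' := by
    have e1 : ∀ T : Finset (ℤ × ℤ), T ⊆ Q → pw n Q ω ∩ edgesIn T = ω' ∩ edgesIn T := by
      intro T hT
      rw [pw_inter hT, hω', pw_inter (hT.trans sQ)]
    obtain ⟨⟨h1, h2⟩, ⟨h3, h4⟩⟩ := hC
    rw [e1 _ (box_mono (by omega) (by omega) (by omega) (by omega))] at h1 h2 h3 h4
    exact ⟨⟨h1, h2⟩, ⟨h3, h4⟩⟩
  obtain ⟨xr, xr', yt, yt', r1, r2, t1, t2, hR, hT, hRT, hbar⟩ :=
    barrier_full' (m := (m:ℤ)) (by omega) sQ hC'
  -- the arm meets the circuit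
  obtain ⟨z, z1, z2⟩ := hA
  have k1 : Joined (ω' ∩ edgesIn D) (xr, -2 * m) (0, 0) := by
    apply hbar (0, 0) z (by rw [nrm_le]; simp)
    · unfold AtDist at z1
      rw [le_nrm]
      rw [sub_zero, sub_zero] at z1
      omega
    · refine joined_mono ?_ z2
      intro e he
      rw [mem_inter] at he ⊢
      have h1 := he.1
      rw [mem_pw] at h1
      refine ⟨?_, edgesIn_mono sQ h1.1⟩
      rw [hω', mem_pw]
      exact ⟨edgesIn_mono sQ h1.1, h1.2⟩
  have eD : ω' ∩ edgesIn D = ω' := inter_eq_left.2 (pw_sub n D ω)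
  rw [eD] at k1 hRT
  -- the horizontal crossing meets the circuit
  obtain ⟨yh, yh', a1, a2, a3, a4, hH⟩ := hH
  rw [← eH] at hH
  have vR : ((xr, -2 * (m:ℤ)) : ℤ × ℤ) ∈ box (m:ℤ) (2 * m) (-2 * m) (2 * m) := by
    rw [mem_box]; simp only; omega
  have sR : box (m:ℤ) (2 * m) (-2 * m) (2 * m) ⊆ D :=
    (box_mono (by omega) (by omega) (by omega) (by omega)).trans sQ
  have vH : ((-2 * (m:ℤ), yh) : ℤ × ℤ) ∈ H := by rw [hHdef, mem_box]; simp only; omega
  have k2 : Joined (ω' ∩ edgesIn D) (xr, -2 * m) (-2 * m, yh) :=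
    vcross (D := D) (fun v hv hv' => absurd (sR hv) hv') hR (sR vR) vR (by omega) sH hH vH
      (fun w hw => by rw [hHdef, mem_box] at hw; omega) (by simp only; omega)
      (by simp only; omega)
  rw [eD] at k2
  -- the vertical crossing meets the horizontal crossing
  obtain ⟨xv, xv', b1, b2, b3, b4, hV⟩ := hV
  rw [← eV] at hV
  have vV : ((xv', 2 * (m:ℤ)) : ℤ × ℤ) ∈ V := by rw [hVdef, mem_box]; simp only; omega
  have k3 : Joined (ω' ∩ edgesIn D) (-2 * m, yh) (xv', 2 * m) :=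
    hcross (D := D) (fun v hv hv' => absurd (sH hv) hv') hH (sH vH) vH (T := V) sV
      (joined_symm hV) vV (fun w hw => by rw [hVdef, mem_box] at hw; omega)
      (by simp only; omega) (by simp only; omega) (by simp only; omega)
  rw [eD] at k3
  -- the translate of the top crossing
  set T0 := box (-2 * (m:ℤ)) (2 * m) m (2 * m) with hT0
  set T1 := box ((n:ℤ) - 2 * m) (n + 2 * m) (-n + m) (-n + 2 * m) with hT1
  have sT0 : T0 ⊆ D := (box_mono (by omega) (by omega) (by omega) (by omega)).trans sQ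
  have sT1 : T1 ⊆ D := box_mono (by omega) (by omega) (by omega) (by omega)
  have eT : T0.map (per n 1).toEmbedding = T1 := by
    ext z
    rw [mem_map_equiv]
    have : (per n 1).symm z = (z.1 - n, z.2 + n) := by
      rw [Equiv.symm_apply_eq, per_apply]
      ext <;> simp only <;> ring
    rw [this, hT0, hT1, mem_box, mem_box]
    simp only
    omega
  have hT' : Joined (ω' ∩ edgesIn T1) (n - 2 * m, -n + yt) (n + 2 * m, -n + yt') := by
    rw [hω', pw_inter sT1, ← eT, pw_map hn1]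
    rw [hω', pw_inter sT0] at hT
    have h1 := joined_map_of (f := per n 1) hT
    rw [per_apply, per_apply] at h1
    have e1 : ((-2 * (m:ℤ) + 1 * n, yt + -(1 * (n:ℤ))) : ℤ × ℤ) = ((n:ℤ) - 2 * m, -(n:ℤ) + yt) := by
      ext <;> simp only <;> ring
    have e2 : ((2 * (m:ℤ) + 1 * n, yt' + -(1 * (n:ℤ))) : ℤ × ℤ) = ((n:ℤ) + 2 * m, -(n:ℤ) + yt') := by
      ext <;> simp only <;> ring
    rw [← e1, ← e2]
    exact h1
  have vT1 : (((n:ℤ) - 2 * m, -n + yt) : ℤ × ℤ) ∈ T1 := by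
    rw [hT1, mem_box]; simp only; omega
  have k4 : Joined (ω' ∩ edgesIn D) (n - 2 * m, -n + yt) (xv', 2 * m) :=
    hcross (D := D) (fun v hv hv' => absurd (sT1 hv) hv') hT' (sT1 vT1) vT1 (T := V) sV
      (joined_symm hV) vV (fun w hw => by rw [hVdef, mem_box] at hw; omega)
      (by simp only; omega) (by simp only; omega) (by simp only; omega)
  rw [eD] at k4
  -- conclusion
  have j1 : JP n ω (xr, -2 * m) (0, 0) := jp_of_joined k1
  have j2 : JP n ω (xr, -2 * m) (-2 * m, yt) := jp_of_joined hRT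
  have j3 : JP n ω (0, 0) (-2 * m, yt) := jp_trans (jp_symm j1) j2
  have j4 := jp_per hn1 1 j3
  rw [per_apply, per_apply] at j4
  have e1 : ((-2 * (m:ℤ) + 1 * n, yt + -(1 * (n:ℤ))) : ℤ × ℤ) = ((n:ℤ) - 2 * m, -(n:ℤ) + yt) := by
    ext <;> simp only <;> ring
  have e2 : ((0 + 1 * (n:ℤ), 0 + -(1 * (n:ℤ))) : ℤ × ℤ) = ((n:ℤ), -(n:ℤ)) := by
    ext <;> simp
  simp only at j4
  rw [e1, e2] at j4
  have j5 : JP n ω (-2 * m, yh) (xv', 2 * m) := jp_of_joined k3
  have j6 : JP n ω (n - 2 * m, -n + yt) (xv', 2 * m) := jp_of_joined k4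
  have j7 : JP n ω (xr, -2 * m) (-2 * m, yh) := jp_of_joined k2
  exact jp_trans (jp_symm j1) (jp_trans j7 (jp_trans j5 (jp_trans (jp_symm j6) (jp_symm j4))))

lemma harris4 {F : Finset (Sym2 (ℤ × ℤ))} {A B C D : Finset (Sym2 (ℤ × ℤ)) → Prop} (hA : Up A)
    (hB : Up B) (hC : Up C) (hD : Up D) :
    P F A * P F B * (P F C * P F D) ≤ P F (fun ω => (A ω ∧ B ω) ∧ (C ω ∧ D ω)) :=
  (mul_le_mul (harris F hA hB) (harris F hC hD) (mul_nonneg (P_nonneg _ _) (P_nonneg _ _))
    (P_nonneg _ _)).trans (harris F (hA.and hB) (hC.and hD))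

/-- the lower bound for large `n` -/
lemma wind_ge {c c' : ℝ} (hc : 0 < c) (hc' : 0 < c')
    (h6 : ∀ n : ℕ, 1 ≤ n → c ≤ pLR (6 * n) n) (h30 : ∀ n : ℕ, 1 ≤ n → c' ≤ pLR (30 * n) n)
    {n M : ℕ} (hn : 8 ≤ n) (hM : 2 * n ≤ M) : c ^ 4 * c' ^ 2 * pi1 n ≤ pWrap n M := by
  obtain ⟨m, hm⟩ : ∃ m : ℕ, m = n / 8 := ⟨_, rfl⟩
  have hm1 : 1 ≤ m := by omega
  have hnm : 4 * m < n := by omega
  have hnm2 : n ≤ 16 * m := by omega
  have hn1 : 1 ≤ n := by omega
  set F := cylE n (-(M:ℤ)) M with hF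
  set Q := box (-2 * (m:ℤ)) (2 * m) (-2 * m) (2 * m) with hQ
  set H := box (-2 * (m:ℤ)) (n + 2 * m) (-m) m with hHdef
  set V := box ((n:ℤ) - m) (n + m) (-n - 2 * m) (2 * m) with hVdef
  have pA : P F (fun ω => Arm Q (0, 0) (2 * m) (pw n Q ω)) = pi1 (2 * m) := by
    rw [hF, P_pw hn1 (emb_box_h (by omega)) (a := -(M:ℤ)) (b := M)
      (fun z hz => by rw [mem_box] at hz; omega) (Arm Q (0, 0) (2 * m))]
    rw [pi1_eq (n := 2 * m) (S := Q) (box_mono (by omega) (by omega) (by omega) (by omega))]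
    unfold armP
    push_cast
    rfl
  have pC : c ^ 4 ≤ P F (fun ω => Circ4 m (pw n Q ω)) := by
    rw [hF, P_pw hn1 (emb_box_h (by omega)) (a := -(M:ℤ)) (b := M)
      (fun z hz => by rw [mem_box] at hz; omega) (Circ4 m)]
    exact circ4_ge hc h6 hm1 subset_rfl
  have pH : c' ≤ P F (fun ω => LR (-2 * m) (n + 2 * m) (-m) m (pw n H ω)) := by
    rw [hF, P_pw hn1 (emb_box_h (by omega)) (a := -(M:ℤ)) (b := M)
      (fun z hz => by rw [mem_box] at hz; omega) (LR (-2 * m) (n + 2 * m) (-m) m),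
      perc_LR]
    refine (h30 m hm1).trans ((pLR_anti (by omega) (by omega) _).trans (pLR_height _ (by omega)))
  have pV : c' ≤ P F (fun ω => BT (n - m) (n + m) (-n - 2 * m) (2 * m) (pw n V ω)) := by
    rw [hF, P_pw hn1 (emb_box_v (by omega)) (a := -(M:ℤ)) (b := M)
      (fun z hz => by rw [mem_box] at hz; omega)
      (BT (n - m) (n + m) (-n - 2 * m) (2 * m)), perc_BT]
    refine (h30 m hm1).trans ((pLR_anti (by omega) (by omega) _).trans (pLR_height _ (by omega)))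
  have hh := harris4 (F := F) (up_pw (n := n) (S := Q) (arm_up Q (0, 0) (2 * m)))
    (up_pw (n := n) (S := Q) (circ4_up (m:ℤ)))
    (up_pw (n := n) (S := H) (up_LR (-2 * m) (n + 2 * m) (-m) m))
    (up_pw (n := n) (S := V) (up_BT (n - m) (n + m) (-n - 2 * m) (2 * m)))
  have h5 : P F (fun ω => (Arm Q (0, 0) (2 * m) (pw n Q ω) ∧ Circ4 m (pw n Q ω)) ∧
      (LR (-2 * m) (n + 2 * m) (-m) m (pw n H ω) ∧
        BT (n - m) (n + m) (-n - 2 * m) (2 * m) (pw n V ω))) ≤ pWrap n M := by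
    unfold pWrap
    apply P_mono
    rintro ω _ ⟨⟨g1, g2⟩, ⟨g3, g4⟩⟩
    exact wind_det hm1 hnm g1 g2 g3 g4
  have s1 : pi1 n * c ^ 4 ≤ P F (fun ω => Arm Q (0, 0) (2 * m) (pw n Q ω)) *
      P F (fun ω => Circ4 m (pw n Q ω)) := by
    rw [pA]
    exact mul_le_mul (pi1_anti (by omega)) pC (by positivity) (pi1_nonneg _)
  have s2 : c' * c' ≤ P F (fun ω => LR (-2 * m) (n + 2 * m) (-m) m (pw n H ω)) *
      P F (fun ω => BT (n - m) (n + m) (-n - 2 * m) (2 * m) (pw n V ω)) :=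
    mul_le_mul pH pV hc'.le (P_nonneg _ _)
  calc c ^ 4 * c' ^ 2 * pi1 n = pi1 n * c ^ 4 * (c' * c') := by ring
    _ ≤ _ := mul_le_mul s1 s2 (by positivity) (mul_nonneg (P_nonneg _ _) (P_nonneg _ _))
    _ ≤ _ := hh.trans h5

/-- positivity -/
lemma pWrap_pos {n : ℕ} (hn : 1 ≤ n) : 0 < pWrap n n := by
  classical
  have h1 : (1:ℝ) / 2 ^ #(cylE n (-(n:ℤ)) n) ≤ pWrap n n := by
    unfold pWrap P
    apply div_le_div_of_nonneg_right _ (by positivity)
    norm_cast
    apply card_pos.2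
    refine ⟨cylE n (-(n:ℤ)) n, ?_⟩
    rw [mem_filter]
    refine ⟨mem_powerset_self _, ?_⟩
    -- the horizontal segment and the vertical segment
    have hstep : ∀ u v : ℤ × ℤ, lattice.Adj u v → -(n:ℤ) ≤ u.1 + u.2 → u.1 + u.2 ≤ n →
        -(n:ℤ) ≤ v.1 + v.2 → v.1 + v.2 ≤ n → JP n (cylE n (-(n:ℤ)) n) u v := by
      intro u v huv h1 h2 h3 h4
      apply SimpleGraph.Adj.reachable
      rw [PG_adj]
      refine ⟨huv, ?_⟩
      have h5 := image_rep_sub hn (S := {u, v}) (a := -(n:ℤ)) (b := n) (by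
        intro z hz
        rw [mem_insert, mem_singleton] at hz
        rcases hz with rfl | rfl <;> omega)
      apply h5
      apply mem_image_of_mem
      rw [mem_edgesIn]
      exact ⟨mem_insert_self _ _, mem_insert_of_mem (mem_singleton_self _), huv⟩
    have hx : ∀ k : ℕ, k ≤ n → JP n (cylE n (-(n:ℤ)) n) (0, 0) (k, 0) := by
      intro k
      induction k with
      | zero => intro _; exact SimpleGraph.Reachable.refl _
      | succ k ih =>
        intro hk
        refine jp_trans (ih (by omega)) (hstep _ _ ?_ ?_ ?_ ?_ ?_)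
        · right; simp
        all_goals simp only; push_cast; omega
    have hy : ∀ k : ℕ, k ≤ n → JP n (cylE n (-(n:ℤ)) n) (n, 0) (n, -k) := by
      intro k
      induction k with
      | zero => intro _; simp only [Nat.cast_zero, neg_zero]; exact SimpleGraph.Reachable.refl _
      | succ k ih =>
        intro hk
        refine jp_trans (ih (by omega)) (hstep _ _ ?_ ?_ ?_ ?_ ?_)
        · left
          refine ⟨rfl, ?_⟩
          simp only
          push_cast
          rw [show -(k:ℤ) - -(k + 1) = 1 by ring]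
          rfl
        all_goals simp only; push_cast; omega
    exact jp_trans (hx n le_rfl) (hy n le_rfl)
  exact lt_of_lt_of_le (by positivity) h1

/-- **Lower bound**: the cluster of `0` winds with probability at least `c * pi1 n`. -/
theorem wind_lower (hX : CrossBound) : ∃ c : ℝ, 0 < c ∧ ∀ n M : ℕ, 1 ≤ n → 2 * n ≤ M →
    c * pi1 n ≤ pWrap n M := by
  obtain ⟨c, hc, h6⟩ := hX 6
  obtain ⟨c', hc', h30⟩ := hX 30
  have h6' : ∀ n : ℕ, 1 ≤ n → c ≤ pLR (6 * n) n := fun n hn => by exact_mod_cast h6 n hn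
  have h30' : ∀ n : ℕ, 1 ≤ n → c' ≤ pLR (30 * n) n := fun n hn => by exact_mod_cast h30 n hn
  have hsmall : ∀ N : ℕ, ∃ e : ℝ, 0 < e ∧ ∀ n : ℕ, n < N → 1 ≤ n → e ≤ pWrap n n := by
    intro N
    induction N with
    | zero => exact ⟨1, one_pos, fun n hn => by omega⟩
    | succ N ih =>
      obtain ⟨e, he, h⟩ := ih
      rcases Nat.eq_zero_or_pos N with rfl | hN
      · exact ⟨1, one_pos, fun n hn h1 => by omega⟩
      · refine ⟨min e (pWrap N N), lt_min he (pWrap_pos hN), fun n hn h1 => ?_⟩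
        rcases Nat.lt_succ_iff_lt_or_eq.1 hn with h2 | rfl
        · exact (min_le_left _ _).trans (h n h2 h1)
        · exact min_le_right _ _
  obtain ⟨e, he, hs⟩ := hsmall 8
  refine ⟨min (c ^ 4 * c' ^ 2) e, lt_min (by positivity) he, fun n M hn hM => ?_⟩
  rcases Nat.lt_or_ge n 8 with h | h
  · calc min (c ^ 4 * c' ^ 2) e * pi1 n ≤ e * 1 :=
          mul_le_mul (min_le_right _ _) (pi1_le_one _) (pi1_nonneg _) he.le
      _ = e := mul_one _
      _ ≤ pWrap n n := hs n h hn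
      _ ≤ pWrap n M := pWrap_mono n (by omega)
  · exact (mul_le_mul_of_nonneg_right (min_le_left _ _) (pi1_nonneg _)).trans
      (wind_ge hc hc' h6' h30' h hM)

/-- leaving a box in the periodic configuration -/
lemma exit_box {n r : ℕ} {ω : Finset (Sym2 (ℤ × ℤ))} {u v : ℤ × ℤ}
    (p : (PG n ω).Walk u v) (hu : nrm u ≤ r) (hv : (r:ℤ) < nrm v) :
    ∃ z : ℤ × ℤ, nrm z = r ∧ Joined (pw n (box (-(r:ℤ)) r (-r) r) ω) u z := by
  induction p with
  | nil => omega
  | @cons a b c hab p ih =>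
    have h1 := adj_nrm ((PG_adj.1 hab).1)
    have h2 := adj_nrm ((PG_adj.1 hab).1.symm)
    rcases le_or_gt (nrm b) r with hb | hb
    · obtain ⟨z, z1, z2⟩ := ih hb hv
      refine ⟨z, z1, joined_trans ?_ z2⟩
      apply SimpleGraph.Adj.reachable
      rw [SimpleGraph.fromEdgeSet_adj, mem_coe, mem_pw, mem_edgesIn, mem_box, mem_box]
      rw [nrm_le, abs_le, abs_le] at hb hu
      rw [PG_adj] at hab
      exact ⟨⟨⟨⟨hu.1.1, hu.1.2, hu.2.1, hu.2.2⟩, ⟨hb.1.1, hb.1.2, hb.2.1, hb.2.2⟩, hab.1⟩, hab.2⟩,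
        hab.1.ne⟩
    · exact ⟨a, by omega, joined_refl _ _⟩

/-- **Upper bound**. -/
theorem wind_upper {n r M : ℕ} (hn : 2 * r + 1 ≤ n) (hM : n ≤ M) : pWrap n M ≤ pi1 r := by
  classical
  set Q := box (-(r:ℤ)) r (-r) r with hQ
  have h1 : P (cylE n (-(M:ℤ)) M) (fun ω => Arm Q (0, 0) r (pw n Q ω)) = pi1 r := by
    rw [P_pw (by omega) (emb_box_h (by omega)) (a := -(M:ℤ)) (b := M)
      (fun z hz => by rw [mem_box] at hz; omega) (Arm Q (0, 0) r)]
    rw [pi1_eq (n := r) (S := Q) subset_rfl]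
    rfl
  rw [← h1]
  unfold pWrap
  apply P_mono
  rintro ω _ ⟨p⟩
  obtain ⟨z, z1, z2⟩ := exit_box (r := r) p (by rw [nrm_le]; simp) (by
    unfold nrm
    rw [lt_max_iff]
    left
    simp only
    rw [abs_of_nonneg (by omega)]
    omega)
  refine ⟨z, ?_, ?_⟩
  · unfold AtDist
    unfold nrm at z1
    rw [sub_zero, sub_zero]
    rcases max_choice |z.1| |z.2| with h | h
    · left; rw [h] at z1; exact z1
    · right; rw [h] at z1; exact z1
  · rw [ball_zero_box, inter_self, inter_eq_left.2 (pw_sub _ _ _)]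
    exact z2

end Cyl
end H47Perc
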