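import Pool.Agent.Helper81.Tile.Glue
import Pool.Agent.Helper18.OneArm.Gap

/-!
The gap partition of the state of `m` rows of tiles is the connectivity of the corners of level
zero in the upper half cylinder.
-/

set_option autoImplicit false

namespace H92Link
open Finset IPC H81Tile
open IP (St)
open OneArm (gL gp cov)

/-! ### positions -/

/-- the node at the position `i` -/
def nps (L i : ℕ) : ℕ := if i < L then 2 * i + 4 else 2 * (i - L) + 5

lemma ps_nps {L i : ℕ} (_h : i < 2 * L) : ps L (nps L i) = i := by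
  unfold ps nps
  split_ifs <;> omega

lemma nps_ps {L u : ℕ} (h4 : 4 ≤ u) (hu : u < 2 * L + 4) : nps L (ps L u) = u := by
  unfold ps nps
  split_ifs <;> omega

lemma nps_bd {L i : ℕ} (h : i < 2 * L) : 4 ≤ nps L i ∧ nps L i < 2 * L + 4 := by
  unfold nps
  split_ifs <;> omega

lemma ps_lt {L u : ℕ} (h4 : 4 ≤ u) (hu : u < 2 * L + 4) : ps L u < 2 * L := by
  unfold ps
  split_ifs <;> omega

lemma pos_ps {L u : ℕ} (_h4 : 4 ≤ u) : pos L u = (ps L u : ℤ) := by
  unfold pos ps
  split_ifs with h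
  · rw [h]; simp
  · have : u % 2 = 1 := by omega
    rw [this]
    push_cast
    ring

/-! ### parity -/

/-- a function on the positions that is constant on the arcs has sum zero over an interval between
equivalent gaps -/
theorem gap_parity {L : ℕ} {σ : St} (hσ : σ ∈ W L) {χ : ℕ → ZMod 2}
    (hχ : ∀ u v, 4 ≤ u → u < 2 * L + 4 → 4 ≤ v → v < 2 * L + 4 → σ u v →
      χ (ps L u) = χ (ps L v)) {g g' : ℕ} (hg : g ≤ g') (hg' : g' ≤ 2 * L) (h : gL L σ g g') :
    ∑ i ∈ Finset.Ico g g', χ i = 0 := by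
  obtain ⟨P, hP, hP1, -, hP3⟩ := bb_partner hσ.1.1
  have hlow := bc_low_W hσ
  have h2 : ∀ a : ZMod 2, a + a = 0 := CharTwo.add_self_eq_zero
  -- the partner of the node at the position `i`
  have key : ∀ i, i < 2 * L → 4 ≤ P (nps L i) ∧ P (nps L i) < 2 * L + 4 ∧
      σ (nps L i) (P (nps L i)) := by
    intro i hi
    have hb := nps_bd hi
    have hr : σ (nps L i) (P (nps L i)) := (hP3 _ _).2 (Or.inr rfl)
    exact ⟨hlow _ hb.1 _ hr, (hP1 _ hb.2).1, hr⟩
  have hmem : ∀ i ∈ Finset.Ico g g', ps L (P (nps L i)) ∈ Finset.Ico g g' := by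
    intro i hi
    rw [Finset.mem_Ico] at hi ⊢
    have hi' : i < 2 * L := by omega
    obtain ⟨k1, k2, k3⟩ := key i hi'
    have hb := nps_bd hi'
    have hc := h _ _ hb.1 hb.2 k1 k2 k3
    unfold cov at hc
    rw [ps_nps hi'] at hc
    omega
  refine Finset.sum_involution (fun i _ => ps L (P (nps L i))) ?_ ?_ ?_ ?_
  · intro i hi
    rw [Finset.mem_Ico] at hi
    have hi' : i < 2 * L := by omega
    obtain ⟨k1, k2, k3⟩ := key i hi'
    have hb := nps_bd hi'
    have := hχ _ _ hb.1 hb.2 k1 k2 k3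
    rw [ps_nps hi'] at this
    rw [← this]
    exact h2 _
  · intro i hi _ hc
    rw [Finset.mem_Ico] at hi
    have hi' : i < 2 * L := by omega
    obtain ⟨k1, k2, k3⟩ := key i hi'
    have hb := nps_bd hi'
    have h3 := congrArg (nps L) hc
    rw [nps_ps k1 k2] at h3
    exact (hP1 _ hb.2).2 h3
  · intro i hi
    exact hmem i hi
  · intro i hi
    rw [Finset.mem_Ico] at hi
    have hi' : i < 2 * L := by omega
    obtain ⟨k1, k2, k3⟩ := key i hi'
    show ps L (P (nps L (ps L (P (nps L i))))) = i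
    rw [nps_ps k1 k2, hP, ps_nps hi']

/-! ### first direction: the gap partition is finer than the connectivity -/

lemma up_zero (x y : ℤ) : lc (up x y) = (x, y) ∧ rc (up x y) = (x + 1, y) := by
  unfold lc rc up cor
  simp [co]

lemma ve_corners (x y : ℤ) : lc (ve x y) = (x, y + 1) ∧ rc (ve x y) = (x, y) := by
  unfold lc rc ve cor
  simp [co]

/-- the boundary sides of a set of corners -/
def bdry (C : Set (ℤ × ℤ)) : Set DS := {d | ¬ (lc d ∈ C ↔ rc d ∈ C)}

lemma mem_bdry {C : Set (ℤ × ℤ)} {d : DS} : d ∈ bdry C ↔ ¬ (lc d ∈ C ↔ rc d ∈ C) := Iff.rfl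

lemma bdry_closed {t : TC} {C R : Set (ℤ × ℤ)}
    (hC : ∀ p ∈ R, ∀ u v, Jn t p u v → (u ∈ C ↔ v ∈ C)) : ClosedOn t R (bdry C) := by
  constructor
  · intro d hd
    rw [mem_bdry] at hd ⊢
    rw [lc_rev, rc_rev]
    tauto
  · intro d hd hR
    rw [mem_bdry] at hd
    have h1 : nxt t d ∈ bdry C := by
      rw [mem_bdry]
      rcases corners_nxt t d with ⟨h2, h3⟩ | ⟨h2, h3⟩
      · rw [h2]
        have := hC _ hR _ _ h3
        tauto
      · rw [h2]
        have := hC _ hR _ _ h3
        tauto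
    rw [← rev_nxt]
    rw [mem_bdry] at h1 ⊢
    rw [lc_rev, rc_rev]
    tauto

open Classical in
/-- indicator modulo two of a set of corners of level zero -/
noncomputable def ind (C : Set (ℤ × ℤ)) (x : ℤ) : ZMod 2 := if (x, (0:ℤ)) ∈ C then 1 else 0

lemma ind_add (C : Set (ℤ × ℤ)) (x : ℤ) : ind C x + ind C (x + 1) = chi (bdry C) (up x 0) := by
  unfold ind chi
  have h := up_zero x 0
  have h2 : (1 : ZMod 2) + 1 = 0 := rfl
  have e : up x 0 ∈ bdry C ↔ ¬ ((x, (0:ℤ)) ∈ C ↔ (x + 1, (0:ℤ)) ∈ C) := by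
    rw [mem_bdry, h.1, h.2]
  by_cases h3 : (x, (0:ℤ)) ∈ C <;> by_cases h4 : (x + 1, (0:ℤ)) ∈ C
  · rw [if_pos h3, if_pos h4, if_neg (by rw [e]; tauto), h2]
  · rw [if_pos h3, if_neg h4, if_pos (by rw [e]; tauto), add_zero]
  · rw [if_neg h3, if_pos h4, if_pos (by rw [e]; tauto), zero_add]
  · rw [if_neg h3, if_neg h4, if_neg (by rw [e]; tauto), add_zero]

lemma ind_sum (C : Set (ℤ × ℤ)) {g g' : ℕ} (hg : g ≤ g') :
    ind C g + ind C g' = ∑ i ∈ Finset.Ico g g', chi (bdry C) (up (i:ℤ) 0) := by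
  have h2 : ∀ a : ZMod 2, a + a = 0 := CharTwo.add_self_eq_zero
  induction g', hg using Nat.le_induction with
  | base => rw [Finset.Ico_self, Finset.sum_empty, h2]
  | succ k hk ih =>
    rw [Finset.sum_Ico_succ_top hk, ← ih, ← ind_add]
    push_cast
    linear_combination (-1 : ZMod 2) * h2 (ind C k)

/-- a set of corners that is closed under the tiles of the upper half respects the gap partition -/
theorem gL_respects {L m : ℕ} {t : TC} (ht : Per L t) {b : ℕ → ℕ → Bool}
    (hb : ∀ j < m, ∀ i < L, t ((i : ℤ), (j : ℤ)) = b j i) {σ : St} (hσ : σ ∈ W L)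
    {C : Set (ℤ × ℤ)} (hC : ∀ p ∈ rows 0 m, ∀ u v, Jn t p u v → (u ∈ C ↔ v ∈ C))
    (hper : ∀ x y : ℤ, (x + (L + L), y) ∈ C ↔ (x, y) ∈ C) (htop : ∀ x : ℤ, (x, (m:ℤ)) ∉ C)
    {g g' : ℕ} (hg : g ≤ 2 * L) (hg' : g' ≤ 2 * L) (h : gL L (mact L b m σ) g g') :
    ((g:ℤ), (0:ℤ)) ∈ C ↔ ((g' : ℤ), (0:ℤ)) ∈ C := by
  have hα := mact_W b m hσ
  have hcl := bdry_closed (t := t) (R := rows 0 m) hC
  have key : ∀ u v, 4 ≤ u → u < 2 * L + 4 → 4 ≤ v → v < 2 * L + 4 → (mact L b m σ) u v →
      chi (bdry C) (up ((ps L u : ℕ) : ℤ) 0) = chi (bdry C) (up ((ps L v : ℕ) : ℤ) 0) := by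
    intro u v hu hu' hv hv' huv
    apply chi_of_iff
    rw [← pos_ps hu, ← pos_ps hv]
    refine mact_resp ht hcl ?_ hb hσ ?_ hu hu' hv hv' huv
    · intro j
      rw [mem_bdry, mem_bdry, (ve_corners _ _).1, (ve_corners _ _).2, (ve_corners _ _).1,
        (ve_corners _ _).2]
      have h1 := hper 0 (j + 1)
      have h2 := hper 0 j
      rw [zero_add] at h1 h2
      rw [h1, h2]
    · have hno : ∀ z : ℤ, up z (m:ℤ) ∉ bdry C := by
        intro z
        rw [mem_bdry, (up_zero _ _).1, (up_zero _ _).2, not_not]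
        exact iff_of_false (htop _) (htop _)
      intro u v _ _ _ _ _
      exact iff_of_false (hno _) (hno _)
  have main : ∀ g g' : ℕ, g ≤ g' → g' ≤ 2 * L → gL L (mact L b m σ) g g' →
      (((g:ℤ), (0:ℤ)) ∈ C ↔ ((g' : ℤ), (0:ℤ)) ∈ C) := by
    intro g g' hgg hg' h
    have h1 := gap_parity hα (χ := fun i => chi (bdry C) (up (i:ℤ) 0)) key hgg hg' h
    rw [← ind_sum C hgg] at h1
    unfold ind at h1
    by_cases h3 : ((g:ℤ), (0:ℤ)) ∈ C <;> by_cases h4 : ((g':ℤ), (0:ℤ)) ∈ C
    · exact iff_of_true h3 h4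
    · rw [if_pos h3, if_neg h4] at h1
      exact absurd h1 (by decide)
    · rw [if_neg h3, if_pos h4] at h1
      exact absurd h1 (by decide)
    · exact iff_of_false h3 h4
  rcases le_total g g' with h1 | h1
  · exact main g g' h1 hg' h
  · exact (main g' g h1 hg ((gL L (mact L b m σ)).symm h)).symm

/-! ### second direction: connected corners are in the same class of the gap partition -/

lemma iter_rev (t : TC) (n : ℕ) (d : DS) : (nxt t)^[n] (rev ((nxt t)^[n] d)) = rev d := by
  induction n with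
  | zero => rfl
  | succ n ih =>
    rw [Function.iterate_succ_apply, Function.iterate_succ_apply', nxt_rev_nxt, ih]

/-- a path from level zero leaves the rows `0, ..., m-1` -/
lemma exits {L : ℕ} (hL : 0 < L) {t : TC} (ht : Per L t) (m : ℕ) (x : ℤ) :
    ∃ n, ((nxt t)^[n] (up x 0)).1 ∉ rows 0 m := by
  by_contra hcon
  push Not at hcon
  have hL' : (0:ℤ) < L := by exact_mod_cast hL
  set f : ℕ → DS := fun n => sh (-(((nxt t)^[n] (up x 0)).1.1 / L) * L) ((nxt t)^[n] (up x 0))
    with hf
  have hfin : (Set.range f).Finite := by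
    apply Set.Finite.subset (((Set.finite_Icc (0:ℤ) L).prod (Set.finite_Icc (0:ℤ) m)).prod
      (Set.finite_univ (α := Fin 4)))
    rintro _ ⟨n, rfl⟩
    have h1 := hcon n
    refine ⟨⟨?_, ?_⟩, Set.mem_univ _⟩
    · show ((nxt t)^[n] (up x 0)).1.1 + -(((nxt t)^[n] (up x 0)).1.1 / L) * L ∈ Set.Icc (0:ℤ) L
      have h2 := Int.emod_nonneg ((nxt t)^[n] (up x 0)).1.1 hL'.ne'
      have h3 := Int.emod_lt_of_pos ((nxt t)^[n] (up x 0)).1.1 hL'
      have h4 := Int.emod_add_mul_ediv ((nxt t)^[n] (up x 0)).1.1 L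
      rw [Set.mem_Icc]
      constructor <;> linarith
    · show ((nxt t)^[n] (up x 0)).1.2 ∈ Set.Icc (0:ℤ) m
      rw [Set.mem_Icc]
      exact ⟨h1.1, h1.2.le⟩
  have hni : ¬ Function.Injective f := fun hinj => (Set.infinite_range_of_injective hinj) hfin
  unfold Function.Injective at hni
  push Not at hni
  obtain ⟨a, b, hab, hne⟩ := hni
  have key : ∀ a b : ℕ, a < b → f a = f b → False := by
    intro a b hlt hab
    have h1 : (nxt t)^[b] (up x 0) =
        sh ((((nxt t)^[b] (up x 0)).1.1 / L - ((nxt t)^[a] (up x 0)).1.1 / L) * L)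
          ((nxt t)^[a] (up x 0)) := by
      have h2 := congrArg (sh ((((nxt t)^[b] (up x 0)).1.1 / L) * L)) hab.symm
      simp only [hf] at h2
      rw [sh_add, sh_add] at h2
      have e1 : -(((nxt t)^[b] (up x 0)).1.1 / (L:ℤ)) * L + ((nxt t)^[b] (up x 0)).1.1 / L * L = 0 := by
        ring
      have e2 : -(((nxt t)^[a] (up x 0)).1.1 / (L:ℤ)) * L + ((nxt t)^[b] (up x 0)).1.1 / L * L =
        (((nxt t)^[b] (up x 0)).1.1 / L - ((nxt t)^[a] (up x 0)).1.1 / L) * L := by ring
      rw [e1, e2, sh_zero] at h2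
      exact h2
    rw [← iter_sh ht] at h1
    have h3 : (nxt t)^[a] ((nxt t)^[b - a] (up x 0)) = (nxt t)^[b] (up x 0) := by
      rw [← Function.iterate_add_apply, show a + (b - a) = b by omega]
    rw [← h3] at h1
    have hinj : Function.Injective ((nxt t)^[a]) := Function.Injective.iterate (stp t).injective a
    have h4 := hinj h1
    obtain ⟨c, hc⟩ : ∃ c, b - a = c + 1 := ⟨b - a - 1, by omega⟩
    have h5 := hcon c
    rw [hc, Function.iterate_succ_apply'] at h4
    have h6 : (rev (nxt t ((nxt t)^[c] (up x 0)))).1 = ((nxt t)^[c] (up x 0)).1 := by rw [rev_nxt]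
    rw [h4, rev_sh, rev_up] at h6
    rw [← h6] at h5
    have := h5.1
    simp [sh, dn] at this
  rcases Nat.lt_or_gt_of_ne hne with h1 | h1
  · exact key a b h1 hab
  · exact key b a h1 hab.symm

/-- crossing the level `m` upwards -/
lemma cross_top {t : TC} {d : DS} {m : ℤ} (h1 : d.1.2 < m) (h2 : m ≤ (nxt t d).1.2) :
    ∃ y, nxt t d = up y m := by
  obtain ⟨⟨x, j⟩, c⟩ := d
  unfold nxt at h2 ⊢
  simp only at h1 h2 ⊢
  generalize prt (t (x, j)) c = c' at *
  fin_cases c'
  · simp [rev, dr] at h2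
    omega
  · simp [rev, dr] at h2
    omega
  · simp [rev, dr] at h2 ⊢
    have : m = j + 1 := by omega
    subst this
    exact ⟨x, by simp [up]⟩
  · simp [rev, dr] at h2
    omega

/-- if no even corner of level `0` is connected to the level `m`, all paths return -/
theorem returns {L : ℕ} (hL : 0 < L) {t : TC} (ht : Per L t) {m : ℕ}
    (hno : ∀ x z : ℤ, x % 2 = 0 → ¬ CConn t (rows 0 m) (x, 0) (z, m)) (x : ℤ) :
    ∃ y, PathUp t m x y := by
  classical
  have hex := exits hL ht m x
  have hfind := Nat.find_spec hex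
  set n := Nat.find hex with hn
  have hmin : ∀ i < n, ((nxt t)^[i] (up x 0)).1 ∈ rows 0 m := by
    intro i hi
    by_contra hc
    exact Nat.find_min hex hi hc
  rcases Nat.eq_zero_or_pos n with h0 | hpos
  · -- m = 0
    exfalso
    rw [h0] at hfind
    have hm : m = 0 := by
      by_contra hm
      apply hfind
      show 0 ≤ (0:ℤ) ∧ (0:ℤ) < m
      omega
    subst hm
    rcases Int.emod_two_eq_zero_or_one x with h | h
    · exact hno x x h Relation.ReflTransGen.refl
    · exact hno (x + 1) (x + 1) (by omega) Relation.ReflTransGen.refl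
  · obtain ⟨k, hk⟩ : ∃ k, n = k + 1 := ⟨n - 1, by omega⟩
    have hprev := hmin k (by omega)
    rw [hk, Function.iterate_succ_apply'] at hfind
    have hcases : (nxt t ((nxt t)^[k] (up x 0))).1.2 < 0 ∨
        (m:ℤ) ≤ (nxt t ((nxt t)^[k] (up x 0))).1.2 := by
      by_contra hc
      push Not at hc
      exact hfind hc
    rcases hcases with h1 | h1
    · obtain ⟨y, hy⟩ := cross_dn hprev.1 h1
      refine ⟨y, n, ?_, hmin⟩
      rw [hk, Function.iterate_succ_apply']
      exact hy
    · exfalso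
      obtain ⟨z, hz⟩ := cross_top hprev.2 h1
      have hc := conn_iter t (rows 0 m) (up x 0) n hmin
      rw [hk, Function.iterate_succ_apply', hz, (up_zero _ _).1, (up_zero _ _).2, (up_zero _ _).1,
        (up_zero _ _).2] at hc
      rcases Int.emod_two_eq_zero_or_one x with h | h
      · exact hno x _ h hc.1
      · exact hno (x + 1) _ (by omega) hc.2

/-- a path does not return to its own strand -/
theorem return_ne {L m : ℕ} (hL : 0 < L) {t : TC} (ht : Per L t) {x y : ℤ} (hp : PathUp t m x y) :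
    nd L y ≠ nd L x := by
  intro heq
  obtain ⟨n, hn, -⟩ := hp
  obtain ⟨k, hk⟩ := nd_eq_iff hL heq
  -- x = y + k (L + L)
  have h1 := iter_rev t n (up x 0)
  rw [hn, rev_dn, rev_up] at h1
  have h2 := iter_sh ht (2 * k) n (up y 0)
  have e1 : sh (2 * k * L) (up y 0) = up x 0 := by
    unfold sh up
    rw [hk]
    simp only
    congr 2
    ring
  rw [e1, h1, hn] at h2
  have h3 := congrArg (fun d : DS => d.1.1) h2
  simp only [dn, sh] at h3
  -- y = x + 2 k L
  have hL' : (L:ℤ) ≠ 0 := by exact_mod_cast hL.ne'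
  have h4 : k * (4 * (L:ℤ)) = 0 := by linear_combination -h3 - hk
  rcases mul_eq_zero.1 h4 with h5 | h5
  · subst h5
    rw [zero_mul, add_zero] at hk
    subst hk
    apply iter_ne_rev t n (up x 0)
    rw [hn, rev_up]
  · omega

open Classical in
/-- indicator of covering, as a function on the integers -/
noncomputable def cvi (L : ℕ) (u v : ℕ) (i : ℤ) : ZMod 2 :=
  if cov (ps L) u v (i % (L + L)).toNat then 1 else 0

lemma nd_iff {L u : ℕ} (hL : 0 < L) (h4 : 4 ≤ u) (hu : u < 2 * L + 4) (i : ℤ) :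
    nd L i = u ↔ (i % (L + L)).toNat = ps L u := by
  have hL' : (0:ℤ) < (L:ℤ) + L := by omega
  have h0 := Int.emod_nonneg i hL'.ne'
  have h1 := Int.emod_lt_of_pos i hL'
  have h2 := Int.emod_add_mul_ediv i ((L:ℤ) + L)
  constructor
  · intro h
    obtain ⟨k, hk⟩ := pos_nd hL i
    rw [h, pos_ps h4] at hk
    have h3 := ps_lt h4 hu
    have h5 : i = (ps L u : ℤ) + (-k) * ((L:ℤ) + L) := by linear_combination -hk
    have h6 : i % ((L:ℤ) + L) = (ps L u : ℤ) := by
      rw [h5, Int.add_mul_emod_self_right]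
      exact Int.emod_eq_of_lt (by omega) (by omega)
    rw [h6]
    simp
  · intro h
    have h3 : i = (ps L u : ℤ) + (i / ((L:ℤ) + L)) * ((L:ℤ) + L) := by
      have h4 : i % ((L:ℤ) + L) = (ps L u : ℤ) := by
        rw [← h]
        exact (Int.toNat_of_nonneg h0).symm
      rw [← h4]
      linear_combination -h2
    rw [h3, nd_add, ← pos_ps h4, nd_pos h4 hu]

lemma cov_step {L u v r : ℕ} (h4 : 4 ≤ u) (hu : u < 2 * L + 4) (h4' : 4 ≤ v) (hv : v < 2 * L + 4)
    (huv : u ≠ v) : (cov (ps L) u v r ↔ cov (ps L) u v (r + 1)) ↔ ¬ (r = ps L u ∨ r = ps L v) := by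
  have hne : ps L u ≠ ps L v := fun h => huv (bc_ps_inj L u v h4 hu h4' hv h)
  unfold cov
  omega

lemma cvi_step {L u v : ℕ} (hL : 0 < L) (h4 : 4 ≤ u) (hu : u < 2 * L + 4) (h4' : 4 ≤ v)
    (hv : v < 2 * L + 4) (huv : u ≠ v) (i : ℤ) :
    cvi L u v i + cvi L u v (i + 1) = if nd L i = u ∨ nd L i = v then 1 else 0 := by
  classical
  have hL' : (0:ℤ) < (L:ℤ) + L := by omega
  have h0 := Int.emod_nonneg i hL'.ne'
  have h1 := Int.emod_lt_of_pos i hL'
  have h2 : (1 : ZMod 2) + 1 = 0 := rfl
  simp only [nd_iff hL h4 hu, nd_iff hL h4' hv]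
  set r := (i % ((L:ℤ) + L)).toNat with hr
  have hr' : (r:ℤ) = i % ((L:ℤ) + L) := Int.toNat_of_nonneg h0
  have hnext : cov (ps L) u v ((i + 1) % ((L:ℤ) + L)).toNat ↔ cov (ps L) u v (r + 1) := by
    by_cases h3 : (r:ℤ) + 1 < (L:ℤ) + L
    · have : (i + 1) % ((L:ℤ) + L) = (r:ℤ) + 1 := by
        have h5 := Int.emod_add_mul_ediv i ((L:ℤ) + L)
        have h6 : i + 1 = ((r:ℤ) + 1) + (i / ((L:ℤ) + L)) * ((L:ℤ) + L) := by
          rw [← hr'] at h5
          linear_combination -h5
        rw [h6, Int.add_mul_emod_self_right]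
        exact Int.emod_eq_of_lt (by omega) h3
      rw [this]
      have : ((r:ℤ) + 1).toNat = r + 1 := by omega
      rw [this]
    · have h4r : (r:ℤ) + 1 = (L:ℤ) + L := by omega
      have : (i + 1) % ((L:ℤ) + L) = 0 := by
        have h5 := Int.emod_add_mul_ediv i ((L:ℤ) + L)
        have : i + 1 = 0 + (i / ((L:ℤ) + L) + 1) * ((L:ℤ) + L) := by
          rw [← hr'] at h5
          linear_combination -h5 + h4r
        rw [this, Int.add_mul_emod_self_right]
        simp
      rw [this]
      have p1 := ps_lt h4 hu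
      have p2 := ps_lt h4' hv
      unfold cov
      simp only [Int.toNat_zero, Nat.zero_le, not_true_eq_false, false_iff, not_not]
      omega
  have hstep := cov_step (r := r) h4 hu h4' hv huv
  unfold cvi
  by_cases a : cov (ps L) u v r <;> by_cases b : cov (ps L) u v (r + 1)
  · rw [if_pos a, if_pos (hnext.2 b), if_neg (hstep.1 (iff_of_true a b)), h2]
  · rw [if_pos a, if_neg (fun h => b (hnext.1 h)), if_pos (by tauto), add_zero]
  · rw [if_neg a, if_pos (hnext.2 b), if_pos (by tauto), zero_add]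
  · rw [if_neg a, if_neg (fun h => b (hnext.1 h)), if_neg (hstep.1 (iff_of_false a b)), add_zero]

theorem gL_of_conn {L m : ℕ} (hL : 0 < L) {t : TC} (ht : Per L t) {b : ℕ → ℕ → Bool}
    (hb : ∀ j < m, ∀ i < L, t ((i : ℤ), (j : ℤ)) = b j i) {σ : St} (hσ : σ ∈ W L)
    (hret : ∀ x : ℤ, ∃ y, PathUp t m x y) {g g' : ℤ} (h : CConn t (rows 0 m) (g, 0) (g', 0)) :
    gL L (mact L b m σ) (g % (L + L)).toNat (g' % (L + L)).toNat := by
  classical
  have h2 : ∀ a : ZMod 2, a + a = 0 := CharTwo.add_self_eq_zero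
  have hα := mact_W b m hσ
  obtain ⟨P, hP, hP1, -, hP3⟩ := bb_partner hα.1.1
  intro u v hu4 hu hv4 hv huv
  by_cases hne : u = v
  · subst hne
    unfold cov
    tauto
  obtain ⟨y, hp⟩ := hret (pos L u)
  have hndu : nd L (pos L u) = u := nd_pos hu4 hu
  have hrel := rel_of_pathUp hL ht hb hσ hp
  have hyne := return_ne hL ht hp
  rw [hndu] at hrel hyne
  have hndy : nd L y = v := by
    have h1 := (hP3 u (nd L y)).1 hrel
    have h3 := (hP3 u v).1 huv
    rcases h1 with h1 | h1
    · exact absurd h1 hyne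
    · rcases h3 with h3 | h3
      · exact absurd h3.symm hne
      · rw [h1, h3]
  obtain ⟨n, hn, hR⟩ := hp
  set x := pos L u with hx
  -- the sides of the path
  set O := spread (L + L) (pathSet t (up x 0) n) with hO
  have ht2 : Per ((L : ℤ) + L) t := by
    intro p
    have := ht.mul 2 p
    rw [show (2 : ℤ) * L = L + L by ring] at this
    exact this
  have hcl : ClosedOn t (rows 0 m) (pathSet t (up x 0) n) := by
    apply pathSet_closedOn
    · rw [rev_up]
      intro h
      have := h.1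
      simp only [dn] at this
      omega
    · rw [hn]
      intro h
      have := h.1
      simp only [dn] at this
      omega
  have hclO : ClosedOn t (rows 0 m) O := hcl.spread ht2 (fun k p hp => hp)
  have hn0 : n ≠ 0 := by
    intro h0
    rw [h0] at hn
    have := congrArg Prod.snd hn
    simp [up, dn] at this
  have hm : 0 < m := by
    have := hR 0 (by omega)
    have h1 := this.1
    have h2 := this.2
    simp only [Function.iterate_zero, id_eq, up] at h1 h2
    omega
  obtain ⟨W', hW⟩ := exists_potOn hclO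
  have hconn := hW.conn hclO (D := rows 0 m) (fun _ h => h) h
  -- level zero
  have hlev : ∀ i : ℤ, up i 0 ∈ O ↔ (nd L i = u ∨ nd L i = v) := by
    intro i
    constructor
    · rintro ⟨k, hk⟩
      have e1 : sh (k * ((L : ℤ) + L)) (up i 0) = up (i + k * (L + L)) 0 := rfl
      rw [e1] at hk
      have hbd := mem_pathSet_boundary hR hk
        (by constructor
            · simp [up]
            · simp only [up]; exact_mod_cast hm)
        (by rw [rev_up]
            intro h
            have := h.1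
            simp only [dn] at this
            omega)
      rcases hbd with hbd | hbd
      · left
        have : i + k * (L + L) = x := by
          have := congrArg (fun d : DS => d.1.1) hbd
          simpa [up] using this
        rw [← hndu, ← this, nd_add]
      · right
        have : i + k * (L + L) = y := by
          rw [hn, rev_dn] at hbd
          have := congrArg (fun d : DS => d.1.1) hbd
          simpa [up] using this
        rw [← hndy, ← this, nd_add]
    · rintro (h1 | h1)
      · rw [← hndu] at h1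
        obtain ⟨k, hk⟩ := nd_eq_iff hL h1
        refine ⟨k, ?_⟩
        have e1 : sh (k * ((L : ℤ) + L)) (up i 0) = up x 0 := by rw [hk]; rfl
        rw [e1]
        exact ⟨0, Nat.zero_le _, Or.inl rfl⟩
      · rw [← hndy] at h1
        obtain ⟨k, hk⟩ := nd_eq_iff hL h1
        refine ⟨k, ?_⟩
        have e1 : sh (k * ((L : ℤ) + L)) (up i 0) = up y 0 := by rw [hk]; rfl
        rw [e1]
        refine ⟨n, le_rfl, Or.inr ?_⟩
        rw [hn, rev_dn]
  have hstep : ∀ i : ℤ, W' (i, 0) + cvi L u v i = W' (i + 1, 0) + cvi L u v (i + 1) := by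
    intro i
    have h1 := hW.hor i 0 le_rfl (by exact_mod_cast hm.le)
    have h3 := cvi_step hL hu4 hu hv4 hv hne i
    have h4 : chi O (up i 0) = if nd L i = u ∨ nd L i = v then 1 else 0 := by
      unfold chi
      by_cases h5 : up i 0 ∈ O
      · rw [if_pos h5, if_pos ((hlev i).1 h5)]
      · rw [if_neg h5, if_neg (fun h => h5 ((hlev i).2 h))]
    rw [h4, ← h3] at h1
    linear_combination h1 - h2 (W' (i + 1, 0)) + h2 (cvi L u v i)
  have hconst : ∀ (k : ℕ) (i : ℤ), W' (i, 0) + cvi L u v i = W' (i + k, 0) + cvi L u v (i + k) := by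
    intro k
    induction k with
    | zero => intro i; simp
    | succ k ih =>
      intro i
      rw [ih, hstep]
      push_cast
      rw [add_assoc]
  have hall : W' (g, 0) + cvi L u v g = W' (g', 0) + cvi L u v g' := by
    rcases le_total g g' with h1 | h1
    · have := hconst (g' - g).toNat g
      rw [Int.toNat_of_nonneg (by omega)] at this
      rwa [add_sub_cancel] at this
    · have := hconst (g - g').toNat g'
      rw [Int.toNat_of_nonneg (by omega)] at this
      rw [add_sub_cancel] at this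
      exact this.symm
  rw [hconn] at hall
  have hfin := add_left_cancel hall
  unfold cvi at hfin
  by_cases a : cov (ps L) u v (g % (L + L)).toNat <;>
    by_cases b : cov (ps L) u v (g' % (L + L)).toNat
  · exact iff_of_true a b
  · rw [if_pos a, if_neg b] at hfin
    exact absurd hfin (by decide)
  · rw [if_neg a, if_pos b] at hfin
    exact absurd hfin (by decide)
  · exact iff_of_false a b

end H92Link
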