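import Pool.Agent.Helper92.Bulk.LinkA

/-!
The one-arm form `h0` of the two half cylinders: deterministic statement.
-/

set_option autoImplicit false

namespace H92Link
open Finset IPC H81Tile
open IP (St)
open OneArm (gL gp cov)

/-! ### reflection -/

/-- reflection of a corner -/
def mcr (v : ℤ × ℤ) : ℤ × ℤ := (v.1, -v.2)

lemma mcr_mcr (v : ℤ × ℤ) : mcr (mcr v) = v := by
  unfold mcr; simp

lemma mirT_mirT (t : TC) : mirT (mirT t) = t := by
  funext p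
  unfold mirT
  rw [Bool.not_not]
  congr 1
  ext
  · rfl
  · simp

/-- the numbers of the corners are reflected -/
def mco : Fin 4 → Fin 4 := ![3, 2, 1, 0]

lemma mcr_cor (p : ℤ × ℤ) (c : Fin 4) : mcr (cor p c) = cor (p.1, -1 - p.2) (mco c) := by
  obtain ⟨x, y⟩ := p
  fin_cases c <;> simp [mcr, cor, co, mco] <;> ring

lemma mco_aux : ∀ (b : Bool) (c : Fin 4), (b = true ↔ (c = 0 ∨ c = 2)) →
    ((!b) = true ↔ (mco c = 0 ∨ mco c = 2)) := by
  decide

lemma mco_add : ∀ c : Fin 4, mco (c + 2) = mco c + 2 := by decide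

lemma jn_mir {t : TC} {p u v : ℤ × ℤ} (h : Jn t p u v) :
    Jn (mirT t) (p.1, -1 - p.2) (mcr u) (mcr v) := by
  obtain ⟨c, rfl, rfl, hc⟩ := h
  refine ⟨mco c, mcr_cor _ _, ?_, ?_⟩
  · rw [mcr_cor, mco_add]
  · have e : mirT t (p.1, -1 - p.2) = !t p := by
      unfold mirT
      congr 2
      ext
      · rfl
      · simp
    rw [e]
    exact mco_aux _ _ hc

lemma cconn_mir {t : TC} {a b : ℤ} {u v : ℤ × ℤ} (h : CConn t (rows a b) u v) :
    CConn (mirT t) (rows (-b) (-a)) (mcr u) (mcr v) := by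
  induction h with
  | refl => exact Relation.ReflTransGen.refl
  | tail _ h2 ih =>
    obtain ⟨p, hp, h⟩ := h2
    refine ih.tail ⟨(p.1, -1 - p.2), ?_, jn_mir h⟩
    have h3 : a ≤ p.2 := hp.1
    have h4 : p.2 < b := hp.2
    show -b ≤ -1 - p.2 ∧ -1 - p.2 < -a
    omega

lemma jn_height {t : TC} {p u v : ℤ × ℤ} (h : Jn t p u v) :
    p.2 ≤ u.2 ∧ u.2 ≤ p.2 + 1 ∧ p.2 ≤ v.2 ∧ v.2 ≤ p.2 + 1 := by
  obtain ⟨c, rfl, rfl, -⟩ := h
  obtain ⟨x, y⟩ := p
  fin_cases c <;> simp [cor, co]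

lemma cconn_height_up {t : TC} {m g : ℤ} {v : ℤ × ℤ} (h : CConn t (rows 0 m) (g, 0) v) :
    0 ≤ v.2 := by
  induction h with
  | refl => exact le_rfl
  | tail _ h2 _ =>
    obtain ⟨p, hp, h⟩ := h2
    exact hp.1.trans (jn_height h).2.2.1

lemma cconn_height_dn {t : TC} {m g : ℤ} {v : ℤ × ℤ} (h : CConn t (rows m 0) (g, 0) v) :
    v.2 ≤ 0 := by
  induction h with
  | refl => exact le_rfl
  | tail _ h2 _ =>
    obtain ⟨p, hp, h⟩ := h2
    have h3 := (jn_height h).2.2.2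
    have h4 : p.2 < 0 := hp.2
    omega

lemma gL_min {L : ℕ} {σ : St} {g g' : ℕ} (h : gL L σ g g') :
    gL L σ (min g (2 * L)) (min g' (2 * L)) := by
  intro x y hx hx' hy hy' hxy
  have h1 := h x y hx hx' hy hy' hxy
  have p1 := ps_lt hx hx'
  have p2 := ps_lt hy hy'
  unfold cov at h1 ⊢
  omega

section
variable {L m : ℕ} {t : TC} {b b' : ℕ → ℕ → Bool} {σ τ : St}

/-- no connection from level zero to the levels `m` and `-m` -/
def Dead (t : TC) (m : ℕ) : Prop := ∀ x z : ℤ, x % 2 = 0 →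
  ¬ CConn t (rows (-m) m) (x, 0) (z, m) ∧ ¬ CConn t (rows (-m) m) (x, 0) (z, -m)

/-- both halves of the gap partition respect a closed set of corners -/
theorem sup_respects (ht : Per L t)
    (hb : ∀ j < m, ∀ i < L, t ((i : ℤ), (j : ℤ)) = b j i)
    (hb' : ∀ j < m, ∀ i < L, t ((i : ℤ), -1 - (j : ℤ)) = !b' j i)
    (hσ : σ ∈ W L) (hτ : τ ∈ W L)
    {C : Set (ℤ × ℤ)} (hC : ∀ p ∈ rows (-m) m, ∀ u v, Jn t p u v → (u ∈ C ↔ v ∈ C))
    (hper : ∀ x y : ℤ, (x + (L + L), y) ∈ C ↔ (x, y) ∈ C) (htop : ∀ x : ℤ, (x, (m:ℤ)) ∉ C)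
    (hbot : ∀ x : ℤ, (x, -(m:ℤ)) ∉ C)
    {g g' : ℕ} (hg : g ≤ 2 * L) (hg' : g' ≤ 2 * L)
    (h : (gL L (mact L b m σ) ⊔ gL L (mact L b' m τ)) g g') :
    ((g:ℤ), (0:ℤ)) ∈ C ↔ ((g' : ℤ), (0:ℤ)) ∈ C := by
  have key := sup_le_of (σ := gL L (mact L b m σ)) (τ := gL L (mact L b' m τ))
    (S := Setoid.comap (fun g : ℕ => ((((min g (2 * L) : ℕ) : ℤ), (0:ℤ)) ∈ C : Prop)) ⊥) ?_ ?_ g g' h
  · have e : ((((min g (2 * L) : ℕ) : ℤ), (0:ℤ)) ∈ C) = ((((min g' (2 * L) : ℕ) : ℤ), (0:ℤ)) ∈ C) :=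
      key
    rw [min_eq_left hg, min_eq_left hg'] at e
    exact iff_of_eq e
  · intro g g' h
    show (((((min g (2 * L) : ℕ) : ℤ), (0:ℤ)) ∈ C) = ((((min g' (2 * L) : ℕ) : ℤ), (0:ℤ)) ∈ C))
    apply propext
    refine gL_respects ht hb hσ (fun p hp u v huv => hC p ?_ u v huv) hper htop (min_le_right _ _)
      (min_le_right _ _) (gL_min h)
    have h1 : (0:ℤ) ≤ p.2 := hp.1
    have h2 : p.2 < m := hp.2
    show -(m:ℤ) ≤ p.2 ∧ p.2 < m
    omega
  · intro g g' h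
    show (((((min g (2 * L) : ℕ) : ℤ), (0:ℤ)) ∈ C) = ((((min g' (2 * L) : ℕ) : ℤ), (0:ℤ)) ∈ C))
    apply propext
    have h3 := gL_respects (C := mcr ⁻¹' C) ht.mirT (b := b') (m := m) (fun j hj i hi => by
      show (!t ((i : ℤ), -1 - (j : ℤ))) = b' j i
      rw [hb' j hj i hi, Bool.not_not]) hτ (fun p hp u v huv => by
        have h4 := jn_mir huv
        rw [mirT_mirT] at h4
        refine hC _ ?_ _ _ h4
        have h1 : (0:ℤ) ≤ p.2 := hp.1
        have h2 : p.2 < m := hp.2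
        show -(m:ℤ) ≤ -1 - p.2 ∧ -1 - p.2 < m
        omega) (fun x y => hper x (-y)) (fun x => hbot x) (min_le_right _ _)
      (min_le_right _ _) (gL_min h)
    have e : ∀ x : ℤ, ((x, (0:ℤ)) ∈ mcr ⁻¹' C ↔ (x, (0:ℤ)) ∈ C) := by
      intro x
      rw [Set.mem_preimage]
      unfold mcr
      simp
    rw [e, e] at h3
    exact h3

/-- corners connected to `(0,0)`, modulo the period of the double cover -/
def cls (L : ℕ) (t : TC) (m : ℕ) : Set (ℤ × ℤ) :=
  {v | ∃ k : ℤ, CConn t (rows (-m) m) (0, 0) (v.1 + k * (L + L), v.2)}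

lemma jn_per (ht : Per L t) {p u v : ℤ × ℤ} (h : Jn t p u v) (k : ℤ) :
    Jn t (p.1 + k * (L + L), p.2) (u.1 + k * (L + L), u.2) (v.1 + k * (L + L), v.2) := by
  obtain ⟨c, rfl, rfl, hc⟩ := h
  refine ⟨c, ?_, ?_, ?_⟩
  · unfold cor
    ext
    · simp; ring
    · simp
  · unfold cor
    ext
    · simp; ring
    · simp
  · have := ht.mul (2 * k) p
    rw [show 2 * k * (L:ℤ) = k * (L + L) by ring] at this
    rw [this]
    exact hc

lemma cls_closed (ht : Per L t) : ∀ p ∈ rows (-m) m, ∀ u v, Jn t p u v →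
    (u ∈ cls L t m ↔ v ∈ cls L t m) := by
  have key : ∀ p ∈ rows (-m) m, ∀ u v, Jn t p u v → u ∈ cls L t m → v ∈ cls L t m := by
    rintro p hp u v h ⟨k, hk⟩
    exact ⟨k, hk.tail ⟨(p.1 + k * (L + L), p.2), hp, jn_per ht h k⟩⟩
  intro p hp u v h
  exact ⟨key p hp u v h, key p hp v u h.symm⟩

lemma cls_per (x y : ℤ) : (x + (L + L), y) ∈ cls L t m ↔ (x, y) ∈ cls L t m := by
  constructor
  · rintro ⟨k, hk⟩
    refine ⟨k + 1, ?_⟩
    have e : x + (k + 1) * ((L:ℤ) + L) = x + (L + L) + k * (L + L) := by ring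
    simp only at hk ⊢
    rw [e]
    exact hk
  · rintro ⟨k, hk⟩
    refine ⟨k - 1, ?_⟩
    have e : x + (L + L) + (k - 1) * ((L:ℤ) + L) = x + k * (L + L) := by ring
    simp only at hk ⊢
    rw [e]
    exact hk

/-- the second direction for the whole cylinder -/
theorem sup_of_conn (hL : 0 < L) (ht : Per L t)
    (hb : ∀ j < m, ∀ i < L, t ((i : ℤ), (j : ℤ)) = b j i)
    (hb' : ∀ j < m, ∀ i < L, t ((i : ℤ), -1 - (j : ℤ)) = !b' j i)
    (hσ : σ ∈ W L) (hτ : τ ∈ W L) (hdead : Dead t m) {v : ℤ × ℤ}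
    (h : CConn t (rows (-m) m) (0, 0) v) :
    ∃ g : ℤ, (gL L (mact L b m σ) ⊔ gL L (mact L b' m τ)) 0 (g % (L + L)).toNat ∧
      (CConn t (rows 0 m) (g, 0) v ∨ CConn t (rows (-m) 0) (g, 0) v) := by
  have hsub1 : rows 0 m ⊆ rows (-(m:ℤ)) m := by
    intro p hp
    have h1 : (0:ℤ) ≤ p.2 := hp.1
    have h2 : p.2 < m := hp.2
    show -(m:ℤ) ≤ p.2 ∧ p.2 < m
    omega
  have hsub2 : rows (-(m:ℤ)) 0 ⊆ rows (-(m:ℤ)) m := by
    intro p hp
    have h1 : -(m:ℤ) ≤ p.2 := hp.1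
    have h2 : p.2 < 0 := hp.2
    show -(m:ℤ) ≤ p.2 ∧ p.2 < m
    omega
  have hup : ∀ g g' : ℤ, CConn t (rows 0 m) (g, 0) (g', 0) →
      gL L (mact L b m σ) (g % (L + L)).toNat (g' % (L + L)).toNat := fun g g' h =>
    gL_of_conn hL ht hb hσ (returns hL ht fun x z hx hc => (hdead x z hx).1 (hc.mono hsub1)) h
  have hdn : ∀ g g' : ℤ, CConn t (rows (-m) 0) (g, 0) (g', 0) →
      gL L (mact L b' m τ) (g % (L + L)).toNat (g' % (L + L)).toNat := by
    intro g g' h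
    have h1 := cconn_mir h
    have e : ∀ x : ℤ, mcr (x, 0) = (x, 0) := fun x => by unfold mcr; simp
    rw [e, e, neg_neg, neg_zero] at h1
    refine gL_of_conn hL ht.mirT (b := b') (fun j hj i hi => by
      show (!t ((i : ℤ), -1 - (j : ℤ))) = b' j i
      rw [hb' j hj i hi, Bool.not_not]) hτ (returns hL ht.mirT fun x z hx hc => ?_) h1
    have h2 := cconn_mir hc
    rw [mirT_mirT, e, neg_zero] at h2
    exact (hdead x z hx).2 (h2.mono hsub2)
  induction h with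
  | refl =>
    refine ⟨0, ?_, Or.inl Relation.ReflTransGen.refl⟩
    rw [Int.zero_emod]
    exact Setoid.refl' _ _
  | @tail v w _ h2 ih =>
    obtain ⟨p, hp, h⟩ := h2
    have hh := jn_height h
    obtain ⟨g, hg, hc⟩ := ih
    by_cases hp0 : 0 ≤ p.2
    · have hpr : p ∈ rows 0 m := ⟨hp0, hp.2⟩
      rcases hc with hc | hc
      · exact ⟨g, hg, Or.inl (hc.tail ⟨p, hpr, h⟩)⟩
      · have h3 := cconn_height_dn hc
        have h4 : v.2 = 0 := by omega
        have h5 : v = (v.1, 0) := by rw [← h4]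
        rw [h5] at hc h
        refine ⟨v.1, Setoid.trans' _ hg (sup_right (hdn _ _ hc)), Or.inl ?_⟩
        exact Relation.ReflTransGen.single ⟨p, hpr, h⟩
    · have hpr : p ∈ rows (-(m:ℤ)) 0 := ⟨hp.1, not_le.1 hp0⟩
      rcases hc with hc | hc
      · have h3 := cconn_height_up hc
        have h4 : v.2 = 0 := by omega
        have h5 : v = (v.1, 0) := by rw [← h4]
        rw [h5] at hc h
        refine ⟨v.1, Setoid.trans' _ hg (sup_left (hup _ _ hc)), Or.inr ?_⟩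
        exact Relation.ReflTransGen.single ⟨p, hpr, h⟩
      · exact ⟨g, hg, Or.inr (hc.tail ⟨p, hpr, h⟩)⟩

/-- **The one-arm form, deterministic statement.** -/
theorem link_det (hL : 0 < L) (ht : Per L t)
    (hb : ∀ j < m, ∀ i < L, t ((i : ℤ), (j : ℤ)) = b j i)
    (hb' : ∀ j < m, ∀ i < L, t ((i : ℤ), -1 - (j : ℤ)) = !b' j i)
    (hσ : σ ∈ W L) (hτ : τ ∈ W L) (hdead : Dead t m) :
    (gL L (mact L b m σ) ⊔ gL L (mact L b' m τ)) 0 L ↔
      ∃ k : ℤ, CConn t (rows (-m) m) (0, 0) ((2 * k + 1) * L, 0) := by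
  constructor
  · intro h
    have h0 : (((0:ℕ):ℤ), (0:ℤ)) ∈ cls L t m := by
      refine ⟨0, ?_⟩
      rw [zero_mul, Nat.cast_zero, add_zero]
      exact Relation.ReflTransGen.refl
    have h1 := (sup_respects ht hb hb' hσ hτ (cls_closed ht) cls_per
      (fun x hx => by
        obtain ⟨k, hk⟩ := hx
        exact (hdead 0 _ rfl).1 hk)
      (fun x hx => by
        obtain ⟨k, hk⟩ := hx
        exact (hdead 0 _ rfl).2 hk) (by omega) (by omega) h).1 h0
    obtain ⟨k, hk⟩ := h1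
    refine ⟨k, ?_⟩
    have e : (L:ℤ) + k * (L + L) = (2 * k + 1) * L := by ring
    simp only at hk
    rw [e] at hk
    exact hk
  · rintro ⟨k, hk⟩
    have hsub1 : rows 0 m ⊆ rows (-(m:ℤ)) m := by
      intro p hp
      have h1 : (0:ℤ) ≤ p.2 := hp.1
      have h2 : p.2 < m := hp.2
      show -(m:ℤ) ≤ p.2 ∧ p.2 < m
      omega
    have hsub2 : rows (-(m:ℤ)) 0 ⊆ rows (-(m:ℤ)) m := by
      intro p hp
      have h1 : -(m:ℤ) ≤ p.2 := hp.1
      have h2 : p.2 < 0 := hp.2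
      show -(m:ℤ) ≤ p.2 ∧ p.2 < m
      omega
    obtain ⟨g, hg, hc⟩ := sup_of_conn hL ht hb hb' hσ hτ hdead hk
    have hL2 : (((2 * k + 1) * (L:ℤ)) % (L + L)).toNat = L := by
      have e : (2 * k + 1) * (L:ℤ) = L + k * (L + L) := by ring
      rw [e, Int.add_mul_emod_self_right, Int.emod_eq_of_lt (by omega) (by omega)]
      simp
    rcases hc with hc | hc
    · have h1 := gL_of_conn hL ht hb hσ (returns hL ht fun x z hx hc =>
        (hdead x z hx).1 (hc.mono hsub1)) hc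
      rw [hL2] at h1
      exact Setoid.trans' _ hg (sup_left h1)
    · have h1 := cconn_mir hc
      have e : ∀ x : ℤ, mcr (x, 0) = (x, 0) := fun x => by unfold mcr; simp
      rw [e, e, neg_neg, neg_zero] at h1
      have h3 := gL_of_conn hL ht.mirT (b := b') (fun j hj i hi => by
        show (!t ((i : ℤ), -1 - (j : ℤ))) = b' j i
        rw [hb' j hj i hi, Bool.not_not]) hτ (returns hL ht.mirT fun x z hx hc => by
          have h2 := cconn_mir hc
          rw [mirT_mirT, e, neg_zero] at h2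
          exact (hdead x z hx).2 (h2.mono hsub2)) h1
      rw [hL2] at h3
      exact Setoid.trans' _ hg (sup_right h3)

end

end H92Link
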