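import Pool.Agent.Helper92.Bulk.LinkB
import Pool.Agent.Helper92.Bulk.CylWind
import Pool.Agent.Helper64.IPC.RowMap

/-!
The one-arm form of the stationary vectors is the probability that the cluster of a vertex winds
around the infinite cylinder.
-/

set_option autoImplicit false
set_option warn.classDefReducibility false

namespace H92Link
open Finset IPC H81Tile H47Perc Cyl
open IP (St)
open OneArm (gL gp cov h0)

/-! ### edges and tiles on the cylinder -/

/-- the open edges of the periodic configuration -/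
def lft (n : ℕ) (ω : Finset (Sym2 (ℤ × ℤ))) : Set (Sym2 (ℤ × ℤ)) :=
  {e | e ∈ lattice.edgeSet ∧ rep n e ∈ ω}

lemma hE_edge (x y : ℤ) : hE x y ∈ lattice.edgeSet := by
  rw [hE, SimpleGraph.mem_edgeSet]; exact lattice_hE x y

lemma vE_edge (x y : ℤ) : vE x y ∈ lattice.edgeSet := by
  rw [vE, SimpleGraph.mem_edgeSet]; exact lattice_vE x y

lemma te_edge (p : ℤ × ℤ) : te p ∈ lattice.edgeSet := by
  rcases te_cases p with ⟨x, y, rfl⟩ | ⟨x, y, rfl⟩
  · rw [te_h]; exact hE_edge x y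
  · rw [te_v]; exact vE_edge x y

lemma hm_te (p : ℤ × ℤ) : hm (te p) = p.2 := by
  rcases te_cases p with ⟨x, y, rfl⟩ | ⟨x, y, rfl⟩
  · rw [te_h]; exact hm_h x y
  · rw [te_v]; exact hm_v x y

lemma te_per (n : ℕ) (k : ℤ) (p : ℤ × ℤ) :
    te (p.1 + k * (2 * n), p.2) = emb (per n k) (te p) := by
  rcases te_cases p with ⟨x, y, rfl⟩ | ⟨x, y, rfl⟩
  · have e : (((x - y, x + y) : ℤ × ℤ).1 + k * (2 * (n:ℤ)), ((x - y, x + y) : ℤ × ℤ).2) =
        ((x + k * n) - (y + -(k * n)), (x + k * n) + (y + -(k * n))) := by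
      ext
      · simp only; ring
      · simp only; ring
    rw [e, te_h, te_h, hE, hE, emb_mk, per_apply, per_apply]
    simp only
    rw [show x + 1 + k * (n:ℤ) = x + k * n + 1 by ring]
  · have e : (((x - y - 1, x + y) : ℤ × ℤ).1 + k * (2 * (n:ℤ)), ((x - y - 1, x + y) : ℤ × ℤ).2) =
        ((x + k * n) - (y + -(k * n)) - 1, (x + k * n) + (y + -(k * n))) := by
      ext
      · simp only; ring
      · simp only; ring
    rw [e, te_v, te_v, vE, vE, emb_mk, per_apply, per_apply]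
    simp only
    rw [show y + 1 + -(k * (n:ℤ)) = y + -(k * n) + 1 by ring]

lemma exists_te {e : Sym2 (ℤ × ℤ)} (he : e ∈ lattice.edgeSet) : ∃ p, te p = e := by
  obtain ⟨x, y, h | h⟩ := edge_cases he
  · exact ⟨(x - y, x + y), by rw [te_h, h]; rfl⟩
  · exact ⟨(x - y - 1, x + y), by rw [te_v, h]; rfl⟩

/-- the tiles of the fundamental domain -/
noncomputable def QQ (n N : ℕ) : Finset (ℤ × ℤ) := Finset.Ico (0:ℤ) (2 * n) ×ˢ Finset.Ico (-(N:ℤ)) N

lemma mem_QQ {n N : ℕ} {p : ℤ × ℤ} : p ∈ QQ n N ↔ (0 ≤ p.1 ∧ p.1 < 2 * n) ∧ -(N:ℤ) ≤ p.2 ∧ p.2 < N := by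
  unfold QQ
  rw [mem_product, mem_Ico, mem_Ico]

lemma rep_te_mem {n N : ℕ} (hn : 1 ≤ n) {p : ℤ × ℤ} (h : -(N:ℤ) ≤ p.2 ∧ p.2 < N) :
    rep n (te p) ∈ cylE n (-(N:ℤ)) N := by
  have hn0 : (0:ℤ) < n := by omega
  rw [mem_cylE, edge_rep, xm_rep, hm_rep, hm_te]
  exact ⟨te_edge p, Int.emod_nonneg _ hn0.ne', Int.emod_lt_of_pos _ hn0, h.1, h.2⟩

lemma rep_te (n : ℕ) (p : ℤ × ℤ) : ∃ k : ℤ, rep n (te p) = te (p.1 + k * (2 * n), p.2) :=
  ⟨_, (te_per n _ p).symm⟩

lemma rep_te_inj {n N : ℕ} {p q : ℤ × ℤ} (hp : p ∈ QQ n N) (hq : q ∈ QQ n N)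
    (h : rep n (te p) = rep n (te q)) : p = q := by
  obtain ⟨k, hk⟩ := rep_te n p
  obtain ⟨l, hl⟩ := rep_te n q
  rw [hk, hl] at h
  have h1 := te_inj h
  rw [Prod.mk.injEq] at h1
  rw [mem_QQ] at hp hq
  obtain ⟨h1, h2⟩ := h1
  have h3 : p.1 = q.1 := by
    have h4 : (k - l) * (2 * (n:ℤ)) = q.1 - p.1 := by linear_combination h1
    rcases lt_trichotomy (k - l) 0 with h5 | h5 | h5
    · have : (k - l) * (2 * (n:ℤ)) ≤ -1 * (2 * (n:ℤ)) :=
        mul_le_mul_of_nonneg_right (by omega) (by omega)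
      omega
    · rw [h5, zero_mul] at h4; omega
    · have : 1 * (2 * (n:ℤ)) ≤ (k - l) * (2 * (n:ℤ)) :=
        mul_le_mul_of_nonneg_right (by omega) (by omega)
      omega
  exact Prod.ext h3 h2

lemma exists_QQ {n N : ℕ} (hn : 1 ≤ n) {e : Sym2 (ℤ × ℤ)} (he : e ∈ cylE n (-(N:ℤ)) N) :
    ∃ p ∈ QQ n N, rep n (te p) = e := by
  rw [mem_cylE] at he
  obtain ⟨q, rfl⟩ := exists_te he.1
  have hn0 : (0:ℤ) < 2 * n := by omega
  have h4 := Int.emod_add_mul_ediv q.1 (2 * (n:ℤ))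
  refine ⟨(q.1 % (2 * n), q.2), ?_, ?_⟩
  · rw [mem_QQ]
    rw [hm_te] at he
    exact ⟨⟨Int.emod_nonneg _ hn0.ne', Int.emod_lt_of_pos _ hn0⟩, he.2.2.2.1, he.2.2.2.2⟩
  · have e1 : ((q.1 % (2 * (n:ℤ)), q.2) : ℤ × ℤ) = (q.1 + (-(q.1 / (2 * n))) * (2 * n), q.2) := by
      ext
      · simp only; linear_combination h4
      · rfl
    rw [e1, te_per, rep_per hn]
    unfold rep
    have h5 : xm (te q) / (n:ℤ) = 0 := Int.ediv_eq_zero_of_lt he.2.1 he.2.2.1
    rw [h5, neg_zero, emb_per_zero]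

/-- the tile configuration of the periodic configuration -/
noncomputable def tc (n : ℕ) (ω : Finset (Sym2 (ℤ × ℤ))) : TC := tcOf (lft n ω)

open Classical in
lemma tc_even {n : ℕ} {ω : Finset (Sym2 (ℤ × ℤ))} {p : ℤ × ℤ} (h : (p.1 + p.2) % 2 = 0) :
    tc n ω p = true ↔ rep n (te p) ∈ ω := by
  unfold tc tcOf
  rw [if_pos h, decide_eq_true_iff]
  exact ⟨fun h => h.2, fun h => ⟨te_edge p, h⟩⟩

open Classical in
lemma tc_odd {n : ℕ} {ω : Finset (Sym2 (ℤ × ℤ))} {p : ℤ × ℤ} (h : ¬ (p.1 + p.2) % 2 = 0) :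
    tc n ω p = true ↔ rep n (te p) ∉ ω := by
  unfold tc tcOf
  rw [if_neg h, decide_eq_true_iff]
  exact ⟨fun h h' => h ⟨te_edge p, h'⟩, fun h h' => h h'.2⟩

lemma tc_per {n : ℕ} (hn : 1 ≤ n) (ω : Finset (Sym2 (ℤ × ℤ))) : Per ((2 * n : ℕ) : ℤ) (tc n ω) := by
  intro p
  have h1 : te (p.1 + ((2 * n : ℕ) : ℤ), p.2) = emb (per n 1) (te p) := by
    have := te_per n 1 p
    rw [one_mul] at this
    rw [← this]
    push_cast
    rfl
  rw [Bool.eq_iff_iff]
  by_cases h : (p.1 + p.2) % 2 = 0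
  · rw [tc_even h, tc_even (by simp only; omega), h1, rep_per hn]
  · rw [tc_odd h, tc_odd (by simp only; omega), h1, rep_per hn]

/-! ### connections -/

lemma rows_tilesOf (a b : ℤ) : rows a b = tilesOf (te '' rows a b) := by
  ext p
  constructor
  · intro h
    exact ⟨p, h, rfl⟩
  · rintro ⟨q, hq, h⟩
    rw [← te_inj h]
    exact hq

lemma hm_mem {n N : ℕ} {ω : Finset (Sym2 (ℤ × ℤ))} (hω : ω ⊆ cylE n (-(N:ℤ)) N)
    {e : Sym2 (ℤ × ℤ)} (h : rep n e ∈ ω) : -(N:ℤ) ≤ hm e ∧ hm e < N := by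
  have h1 := hω h
  rw [mem_cylE, hm_rep] at h1
  exact h1.2.2.2

/-- connection of primal corners is connection in the periodic configuration -/
lemma cconn_jp {n N : ℕ} {ω : Finset (Sym2 (ℤ × ℤ))} (hω : ω ⊆ cylE n (-(N:ℤ)) N)
    {u w : ℤ × ℤ} : CConn (tc n ω) (rows (-((N+1:ℕ):ℤ)) ((N+1:ℕ):ℤ)) (st u) w ↔
      ∃ v, w = st v ∧ JP n ω u v := by
  rw [rows_tilesOf]
  unfold tc
  rw [cconn_st_iff]
  have key : ∀ v, Relation.ReflTransGen (VStep (te '' rows (-((N+1:ℕ):ℤ)) ((N+1:ℕ):ℤ)) (lft n ω)) u v ↔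
      JP n ω u v := by
    intro v
    constructor
    · intro h
      induction h with
      | refl => exact SimpleGraph.Reachable.refl _
      | tail _ h2 ih =>
        refine jp_trans ih (SimpleGraph.Adj.reachable ?_)
        rw [PG_adj]
        exact ⟨h2.2.2, h2.2.1.2⟩
    · rintro ⟨p⟩
      induction p with
      | nil => exact Relation.ReflTransGen.refl
      | @cons a b c h _ ih =>
        rw [PG_adj] at h
        refine Relation.ReflTransGen.head ⟨?_, ⟨?_, h.2⟩, h.1⟩ ih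
        · obtain ⟨p, hp⟩ := exists_te (e := s(a, b)) ((SimpleGraph.mem_edgeSet _).2 h.1)
          refine ⟨p, ?_, hp⟩
          have h1 := hm_mem hω h.2
          rw [← hp, hm_te] at h1
          show -((N+1:ℕ):ℤ) ≤ p.2 ∧ p.2 < ((N+1:ℕ):ℤ)
          push_cast
          omega
        · exact (SimpleGraph.mem_edgeSet _).2 h.1
  constructor
  · rintro ⟨v, h1, h2⟩
    exact ⟨v, h1, (key v).1 h2⟩
  · rintro ⟨v, h1, h2⟩
    exact ⟨v, h1, (key v).2 h2⟩

lemma jp_height {n N : ℕ} {ω : Finset (Sym2 (ℤ × ℤ))} (hω : ω ⊆ cylE n (-(N:ℤ)) N)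
    {u v : ℤ × ℤ} (h : JP n ω u v) (hu : -(N:ℤ) ≤ u.1 + u.2 ∧ u.1 + u.2 ≤ N) :
    -(N:ℤ) ≤ v.1 + v.2 ∧ v.1 + v.2 ≤ N := by
  obtain ⟨p⟩ := h
  induction p with
  | nil => exact hu
  | @cons a b c h _ ih =>
    apply ih
    rw [PG_adj] at h
    have h1 := hm_mem hω h.2
    rw [hm_mk] at h1
    have h3 := adj_cases h.1
    obtain ⟨a1, a2⟩ := a
    rcases h3 with h3 | h3 | h3 | h3 <;> subst h3 <;> simp only at h1 hu ⊢ <;> omega

lemma dead {n N : ℕ} {ω : Finset (Sym2 (ℤ × ℤ))} (hω : ω ⊆ cylE n (-(N:ℤ)) N) :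
    Dead (tc n ω) (N + 1) := by
  intro x z hx
  have e : ((x, 0) : ℤ × ℤ) = st (x / 2, -(x / 2)) := by
    unfold st
    ext
    · simp only; omega
    · simp
  rw [e, cconn_jp hω, cconn_jp hω]
  constructor
  · rintro ⟨v, h1, h2⟩
    have h3 := jp_height hω h2 (by simp)
    have h4 := congrArg Prod.snd h1
    unfold st at h4
    simp only at h4
    push_cast at h4
    omega
  · rintro ⟨v, h1, h2⟩
    have h3 := jp_height hω h2 (by simp)
    have h4 := congrArg Prod.snd h1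
    unfold st at h4
    simp only at h4
    push_cast at h4
    omega

/-! ### the boundary rows -/

/-- the pattern of the boundary row: all edges closed -/
def evp (i : ℕ) : Bool := decide (i % 2 = 0)

/-- the boundary state -/
noncomputable def bst (L : ℕ) : St := lact L evp (top L)

lemma bst_W (L : ℕ) : bst L ∈ W L := lact_W _ (top_W L)

lemma te_not_mem {n N : ℕ} {ω : Finset (Sym2 (ℤ × ℤ))} (hω : ω ⊆ cylE n (-(N:ℤ)) N) {p : ℤ × ℤ}
    (h : p.2 < -(N:ℤ) ∨ (N:ℤ) ≤ p.2) : rep n (te p) ∉ ω := by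
  intro hc
  have h1 := hm_mem hω hc
  rw [hm_te] at h1
  omega

lemma top_row {n N : ℕ} (hN : N % 2 = 1) {ω : Finset (Sym2 (ℤ × ℤ))}
    (hω : ω ⊆ cylE n (-(N:ℤ)) N) (i : ℕ) : tc n ω ((i:ℤ), (N:ℤ)) = evp i := by
  have h1 : rep n (te ((i:ℤ), (N:ℤ))) ∉ ω := te_not_mem hω (Or.inr le_rfl)
  rw [Bool.eq_iff_iff]
  unfold evp
  rw [decide_eq_true_iff]
  by_cases h : ((i:ℤ) + (N:ℤ)) % 2 = 0
  · rw [tc_even h]
    exact iff_of_false h1 (by omega)
  · rw [tc_odd h]
    exact iff_of_true h1 (by omega)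

lemma bot_row {n N : ℕ} (hN : N % 2 = 1) {ω : Finset (Sym2 (ℤ × ℤ))}
    (hω : ω ⊆ cylE n (-(N:ℤ)) N) (i : ℕ) : tc n ω ((i:ℤ), -1 - (N:ℤ)) = !evp i := by
  have h1 : rep n (te ((i:ℤ), -1 - (N:ℤ))) ∉ ω := te_not_mem hω (Or.inl (by simp only; omega))
  rw [Bool.eq_iff_iff, Bool.not_eq_true']
  unfold evp
  rw [decide_eq_false_iff_not]
  by_cases h : ((i:ℤ) + (-1 - (N:ℤ))) % 2 = 0
  · rw [tc_even h]
    exact iff_of_false h1 (by omega)
  · rw [tc_odd h]
    exact iff_of_true h1 (by omega)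

/-- the winding event -/
def Wind (n : ℕ) (ω : Finset (Sym2 (ℤ × ℤ))) : Prop :=
  ∃ k : ℤ, JP n ω (0, 0) (per n (2 * k + 1) (0, 0))

/-- rows of the upper half -/
noncomputable def AA (n N : ℕ) (ω : Finset (Sym2 (ℤ × ℤ))) : Finset (ℕ × ℕ) :=
  (range N ×ˢ range (2 * n)).filter (fun q => tc n ω ((q.2:ℤ), (q.1:ℤ)) = true)
/-- rows of the lower half -/
noncomputable def BB (n N : ℕ) (ω : Finset (Sym2 (ℤ × ℤ))) : Finset (ℕ × ℕ) :=
  (range N ×ˢ range (2 * n)).filter (fun q => tc n ω ((q.2:ℤ), -1 - (q.1:ℤ)) = false)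

lemma mact_AA {n N : ℕ} (hN : N % 2 = 1) {ω : Finset (Sym2 (ℤ × ℤ))}
    (hω : ω ⊆ cylE n (-(N:ℤ)) N) :
    mact (2 * n) (fun j i => decide ((j, i) ∈ AA n N ω)) N (bst (2 * n)) =
      mact (2 * n) (fun j i => tc n ω ((i:ℤ), (j:ℤ))) (N + 1) (top (2 * n)) := by
  show _ = mact (2 * n) (fun j i => tc n ω ((i:ℤ), (j:ℤ))) N
    (lact (2 * n) (fun i => tc n ω ((i:ℤ), (N:ℤ))) (top (2 * n)))
  have e : lact (2 * n) (fun i => tc n ω ((i:ℤ), (N:ℤ))) (top (2 * n)) = bst (2 * n) :=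
    rm_lact_congr (fun i _ => top_row hN hω i) _
  rw [e]
  refine rm_mact_congr (fun j hj i hi => ?_) _
  have h1 : ((j, i) ∈ AA n N ω) ↔ tc n ω ((i:ℤ), (j:ℤ)) = true := by
    unfold AA
    rw [mem_filter, mem_product, mem_range, mem_range]
    exact ⟨fun h => h.2, fun h => ⟨⟨hj, hi⟩, h⟩⟩
  rw [Bool.eq_iff_iff, decide_eq_true_iff]
  exact h1

lemma mact_BB {n N : ℕ} (hN : N % 2 = 1) {ω : Finset (Sym2 (ℤ × ℤ))}
    (hω : ω ⊆ cylE n (-(N:ℤ)) N) :
    mact (2 * n) (fun j i => decide ((j, i) ∈ BB n N ω)) N (bst (2 * n)) =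
      mact (2 * n) (fun j i => !tc n ω ((i:ℤ), -1 - (j:ℤ))) (N + 1) (top (2 * n)) := by
  show _ = mact (2 * n) (fun j i => !tc n ω ((i:ℤ), -1 - (j:ℤ))) N
    (lact (2 * n) (fun i => !tc n ω ((i:ℤ), -1 - (N:ℤ))) (top (2 * n)))
  have e : lact (2 * n) (fun i => !tc n ω ((i:ℤ), -1 - (N:ℤ))) (top (2 * n)) = bst (2 * n) :=
    rm_lact_congr (fun i _ => by rw [bot_row hN hω i, Bool.not_not]) _
  rw [e]
  refine rm_mact_congr (fun j hj i hi => ?_) _
  have h1 : ((j, i) ∈ BB n N ω) ↔ tc n ω ((i:ℤ), -1 - (j:ℤ)) = false := by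
    unfold BB
    rw [mem_filter, mem_product, mem_range, mem_range]
    exact ⟨fun h => h.2, fun h => ⟨⟨hj, hi⟩, h⟩⟩
  rw [Bool.eq_iff_iff, decide_eq_true_iff, Bool.not_eq_true']
  exact h1

open Classical in
/-- the form of the two halves is the indicator of the winding event -/
theorem h0_wind {n N : ℕ} (hn : 1 ≤ n) (hN : N % 2 = 1) {ω : Finset (Sym2 (ℤ × ℤ))}
    (hω : ω ⊆ cylE n (-(N:ℤ)) N) :
    h0 (2 * n) (mact (2 * n) (fun j i => decide ((j, i) ∈ AA n N ω)) N (bst (2 * n)))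
      (mact (2 * n) (fun j i => decide ((j, i) ∈ BB n N ω)) N (bst (2 * n))) =
      if Wind n ω then 1 else 0 := by
  rw [mact_AA hN hω, mact_BB hN hω]
  unfold h0
  have key := link_det (L := 2 * n) (m := N + 1) (by omega) (tc_per hn ω)
    (b := fun j i => tc n ω ((i:ℤ), (j:ℤ)))
    (b' := fun j i => !tc n ω ((i:ℤ), -1 - (j:ℤ))) (fun _ _ _ _ => rfl)
    (fun _ _ _ _ => by rw [Bool.not_not]) (top_W _) (top_W _) (dead hω)
  have e : (∃ k : ℤ, CConn (tc n ω) (rows (-((N + 1 : ℕ):ℤ)) ((N + 1 : ℕ):ℤ)) (0, 0)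
      ((2 * k + 1) * ((2 * n : ℕ) : ℤ), 0)) ↔ Wind n ω := by
    unfold Wind
    apply exists_congr
    intro k
    have e1 : ((0, 0) : ℤ × ℤ) = st (0, 0) := rfl
    have e2 : (((2 * k + 1) * ((2 * n : ℕ) : ℤ), 0) : ℤ × ℤ) = st (per n (2 * k + 1) (0, 0)) := by
      unfold st
      rw [per_apply]
      push_cast
      ext
      · simp only; ring
      · simp only; ring
    rw [e2]
    nth_rewrite 1 [e1]
    rw [cconn_jp hω]
    constructor
    · rintro ⟨v, h1, h2⟩
      rw [← st_inj h1] at h2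
      exact h2
    · intro h
      exact ⟨_, rfl, h⟩
  by_cases h : Wind n ω
  · rw [if_pos h, if_pos (key.2 (e.2 h))]
  · rw [if_neg h, if_neg (fun h' => h (e.1 (key.1 h')))]

/-! ### counting -/

/-- value of the tile `p` given by the two arrays -/
def vl (A B : Finset (ℕ × ℕ)) (p : ℤ × ℤ) : Prop :=
  if 0 ≤ p.2 then (p.2.toNat, p.1.toNat) ∈ A else (-1 - p.2).toNat ∉ {j : ℕ | (j, p.1.toNat) ∈ B}

open Classical in
theorem conf_bij {n N : ℕ} (hn : 1 ≤ n) : Set.BijOn (fun ω => (AA n N ω, BB n N ω))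
    ((cylE n (-(N:ℤ)) N).powerset : Set (Finset (Sym2 (ℤ × ℤ))))
    (((range N ×ˢ range (2 * n)).powerset ×ˢ (range N ×ˢ range (2 * n)).powerset :
      Finset (Finset (ℕ × ℕ) × Finset (ℕ × ℕ))) : Set (Finset (ℕ × ℕ) × Finset (ℕ × ℕ))) := by
  have hQ1 : ∀ j i : ℕ, j < N → i < 2 * n → (((i:ℤ), (j:ℤ)) : ℤ × ℤ) ∈ QQ n N := by
    intro j i hj hi
    rw [mem_QQ]
    simp only
    omega
  have hQ2 : ∀ j i : ℕ, j < N → i < 2 * n → (((i:ℤ), -1 - (j:ℤ)) : ℤ × ℤ) ∈ QQ n N := by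
    intro j i hj hi
    rw [mem_QQ]
    simp only
    omega
  refine ⟨?_, ?_, ?_⟩
  · intro ω _
    rw [mem_coe, mem_product, mem_powerset, mem_powerset]
    exact ⟨filter_subset _ _, filter_subset _ _⟩
  · intro ω hω ω' hω' h
    rw [mem_coe, mem_powerset] at hω hω'
    simp only [Prod.mk.injEq] at h
    -- the tiles agree on QQ
    have ht : ∀ p ∈ QQ n N, (tc n ω p = true ↔ tc n ω' p = true) := by
      intro p hp
      rw [mem_QQ] at hp
      by_cases h0 : 0 ≤ p.2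
      · have e : p = ((p.1.toNat : ℤ), (p.2.toNat : ℤ)) := by
          ext
          · simp only; omega
          · simp only; omega
        have h1 : ((p.2.toNat, p.1.toNat) ∈ AA n N ω) ↔ ((p.2.toNat, p.1.toNat) ∈ AA n N ω') := by
          rw [h.1]
        unfold AA at h1
        rw [mem_filter, mem_filter, ← e] at h1
        have h2 : (p.2.toNat, p.1.toNat) ∈ range N ×ˢ range (2 * n) := by
          rw [mem_product, mem_range, mem_range]
          simp only
          omega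
        tauto
      · have e : p = ((p.1.toNat : ℤ), -1 - (((-1 - p.2).toNat : ℕ) : ℤ)) := by
          ext
          · simp only; omega
          · simp only; omega
        have h1 : (((-1 - p.2).toNat, p.1.toNat) ∈ BB n N ω) ↔
            (((-1 - p.2).toNat, p.1.toNat) ∈ BB n N ω') := by
          rw [h.2]
        unfold BB at h1
        rw [mem_filter, mem_filter, ← e] at h1
        have h2 : ((-1 - p.2).toNat, p.1.toNat) ∈ range N ×ˢ range (2 * n) := by
          rw [mem_product, mem_range, mem_range]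
          simp only
          omega
        have h3 : tc n ω p = false ↔ tc n ω' p = false := by tauto
        rw [← Bool.not_eq_false, ← Bool.not_eq_false, h3]
    have hr : ∀ p ∈ QQ n N, (rep n (te p) ∈ ω ↔ rep n (te p) ∈ ω') := by
      intro p hp
      have h1 := ht p hp
      by_cases h0 : (p.1 + p.2) % 2 = 0
      · rw [tc_even h0, tc_even h0] at h1
        exact h1
      · rw [tc_odd h0, tc_odd h0] at h1
        exact not_iff_not.1 h1
    ext e
    constructor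
    · intro he
      obtain ⟨p, hp, rfl⟩ := exists_QQ hn (hω he)
      exact (hr p hp).1 he
    · intro he
      obtain ⟨p, hp, rfl⟩ := exists_QQ hn (hω' he)
      exact (hr p hp).2 he
  · rintro ⟨A, B⟩ hAB
    rw [mem_coe, mem_product, mem_powerset, mem_powerset] at hAB
    obtain ⟨hA, hB⟩ := hAB
    simp only at hA hB
    let ω : Finset (Sym2 (ℤ × ℤ)) := (cylE n (-(N:ℤ)) N).filter (fun e => ∃ p ∈ QQ n N,
      rep n (te p) = e ∧ ((p.1 + p.2) % 2 = 0 ↔ vl A B p))
    have hmem : ∀ p ∈ QQ n N, (rep n (te p) ∈ ω ↔ ((p.1 + p.2) % 2 = 0 ↔ vl A B p)) := by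
      intro p hp
      have hp' := hp
      rw [mem_QQ] at hp'
      constructor
      · intro h
        obtain ⟨q, hq, h1, h2⟩ := (mem_filter.1 h).2
        rw [rep_te_inj hq hp h1] at h2
        exact h2
      · intro h
        exact mem_filter.2 ⟨rep_te_mem hn hp'.2, p, hp, rfl, h⟩
    have htc : ∀ p ∈ QQ n N, (tc n ω p = true ↔ vl A B p) := by
      intro p hp
      have h1 := hmem p hp
      by_cases h0 : (p.1 + p.2) % 2 = 0
      · rw [tc_even h0, h1]
        tauto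
      · rw [tc_odd h0, h1]
        tauto
    refine ⟨ω, ?_, ?_⟩
    · rw [mem_coe, mem_powerset]
      exact filter_subset _ _
    · simp only [Prod.mk.injEq]
      constructor
      · ext q
        obtain ⟨j, i⟩ := q
        unfold AA
        rw [mem_filter]
        constructor
        · rintro ⟨h1, h2⟩
          rw [mem_product, mem_range, mem_range] at h1
          have h3 := (htc _ (hQ1 j i h1.1 h1.2)).1 h2
          unfold vl at h3
          rw [if_pos (by simp)] at h3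
          simpa using h3
        · intro h1
          have h2 := hA h1
          have h3 := h2
          rw [mem_product, mem_range, mem_range] at h3
          refine ⟨h2, (htc _ (hQ1 j i h3.1 h3.2)).2 ?_⟩
          unfold vl
          rw [if_pos (by simp)]
          simpa using h1
      · ext q
        obtain ⟨j, i⟩ := q
        unfold BB
        rw [mem_filter]
        have e1 : (-1 - (-1 - (j:ℤ))).toNat = j := by omega
        constructor
        · rintro ⟨h1, h2⟩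
          rw [mem_product, mem_range, mem_range] at h1
          have h3 : ¬ vl A B ((i:ℤ), -1 - (j:ℤ)) := by
            rw [← htc _ (hQ2 j i h1.1 h1.2), h2]
            simp
          unfold vl at h3
          rw [if_neg (by simp only; omega)] at h3
          simp only [Set.mem_ofPred_eq, not_not, e1, Int.toNat_natCast] at h3
          exact h3
        · intro h1
          have h2 := hB h1
          have h3 := h2
          rw [mem_product, mem_range, mem_range] at h3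
          refine ⟨h2, ?_⟩
          rw [← Bool.not_eq_true, htc _ (hQ2 j i h3.1 h3.2)]
          unfold vl
          rw [if_neg (by simp only; omega)]
          simp only [Set.mem_ofPred_eq, not_not, e1, Int.toNat_natCast]
          exact h1

open Pool.Agent.Helper69.RSW (P P_mono P_congr P_nonneg P_le_one) in
/-- the probability of the winding event -/
noncomputable def pW (n N : ℕ) : ℝ := Pool.Agent.Helper69.RSW.P (cylE n (-(N:ℤ)) N) (Wind n)

open Classical in
theorem link_count {n N : ℕ} (hn : 1 ≤ n) (hN : N % 2 = 1) :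
    (1 / 2 : ℝ) ^ (2 * n * N + 2 * n * N) * ∑ A ∈ (range N ×ˢ range (2 * n)).powerset,
      ∑ B ∈ (range N ×ˢ range (2 * n)).powerset,
        h0 (2 * n) (mact (2 * n) (fun j i => decide ((j, i) ∈ A)) N (bst (2 * n)))
          (mact (2 * n) (fun j i => decide ((j, i) ∈ B)) N (bst (2 * n))) = pW n N := by
  have hbij := conf_bij (N := N) hn
  have hcard : 2 ^ #(cylE n (-(N:ℤ)) N) = 2 ^ (2 * n * N) * 2 ^ (2 * n * N) := by
    have h1 := Finset.card_bij (s := (cylE n (-(N:ℤ)) N).powerset)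
      (t := (range N ×ˢ range (2 * n)).powerset ×ˢ (range N ×ˢ range (2 * n)).powerset)
      (fun ω _ => (AA n N ω, BB n N ω)) (fun ω hω => hbij.1 hω)
      (fun ω hω ω' hω' h => hbij.2.1 hω hω' h)
      (fun q hq => by
        obtain ⟨ω, h1, h2⟩ := hbij.2.2 hq
        exact ⟨ω, h1, h2⟩)
    rw [card_powerset, card_product, card_powerset, card_product, card_range, card_range] at h1
    rw [h1, mul_comm N (2 * n)]
  rw [← sum_product']
  rw [← Finset.sum_bij (s := (cylE n (-(N:ℤ)) N).powerset)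
      (t := (range N ×ˢ range (2 * n)).powerset ×ˢ (range N ×ˢ range (2 * n)).powerset)
      (f := fun ω => if Wind n ω then (1:ℝ) else 0)
      (fun ω _ => (AA n N ω, BB n N ω)) (fun ω hω => hbij.1 hω)
      (fun ω hω ω' hω' h => hbij.2.1 hω hω' h)
      (fun q hq => by
        obtain ⟨ω, h1, h2⟩ := hbij.2.2 hq
        exact ⟨ω, h1, h2⟩)
      (fun ω hω => by
        rw [mem_powerset] at hω
        exact (h0_wind hn hN hω).symm)]
  unfold pW Pool.Agent.Helper69.RSW.P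
  rw [← Finset.sum_filter, sum_const, nsmul_eq_mul, mul_one]
  have h2 : ((2:ℝ) ^ #(cylE n (-(N:ℤ)) N)) = 2 ^ (2 * n * N) * 2 ^ (2 * n * N) := by
    exact_mod_cast hcard
  rw [h2, one_div, inv_pow, pow_add]
  rw [div_eq_inv_mul]

/-- **The limit of the winding probabilities.** -/
theorem pW_tendsto {n : ℕ} (hn : 1 ≤ n) : Filter.Tendsto (fun K : ℕ => pW n (2 * K + 1)) Filter.atTop
    (nhds (bil (h0 (2 * n)) (P (2 * n) (fun _ => 0)) (P (2 * n) (fun _ => 0)))) := by
  have h1 := count_limit (h0 (2 * n)) (bst_W (2 * n)) (bst_W (2 * n))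
  have h2 : Filter.Tendsto (fun K : ℕ => 2 * K + 1) Filter.atTop Filter.atTop :=
    Filter.tendsto_atTop_mono (fun K => (by show K ≤ 2 * K + 1; omega)) Filter.tendsto_id
  refine (h1.comp h2).congr fun K => ?_
  exact link_count (N := 2 * K + 1) hn (by omega)

end H92Link
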