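import Pool.Agent.Helper92.Bulk.LinkC
import Pool.Agent.Helper92.Bulk.OneArm

/-!
The full-plane one-arm exponent from the one-arm form of the stationary vectors.
-/

set_option autoImplicit false

namespace H92Link
open Finset Filter Topology H47Perc Cyl
open Pool.Agent.Helper69.RSW (P_mono P_congr P_nonneg P_indep P_le_one)
open OneArm (h0)

lemma pWrap_le_pW (n N : ℕ) : pWrap n N ≤ pW n N := by
  unfold pWrap pW
  apply P_mono
  intro ω _ h
  refine ⟨0, ?_⟩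
  have e : per n (2 * 0 + 1) (0, 0) = ((n:ℤ), -(n:ℤ)) := by
    rw [per_apply]
    simp
  rw [e]
  exact h

lemma pW_upper {n r M : ℕ} (hn : 2 * r + 1 ≤ n) (hM : n ≤ M) : pW n M ≤ pi1 r := by
  classical
  set Q := box (-(r:ℤ)) r (-r) r with hQ
  have h1 : Pool.Agent.Helper69.RSW.P (cylE n (-(M:ℤ)) M) (fun ω => Arm Q (0, 0) r (pw n Q ω)) =
      pi1 r := by
    rw [P_pw (by omega) (emb_box_h (by omega)) (a := -(M:ℤ)) (b := M)
      (fun z hz => by rw [mem_box] at hz; omega) (Arm Q (0, 0) r)]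
    rw [pi1_eq (n := r) (S := Q) subset_rfl]
    rfl
  rw [← h1]
  unfold pW
  apply P_mono
  rintro ω _ ⟨k, ⟨p⟩⟩
  have hout : (r:ℤ) < nrm (per n (2 * k + 1) (0, 0)) := by
    unfold nrm
    rw [lt_max_iff]
    left
    rw [per_apply]
    simp only [zero_add]
    rw [abs_mul, Nat.abs_cast]
    have h2 : 1 ≤ |2 * k + 1| := Int.one_le_abs (by omega)
    have h3 : 1 * (n:ℤ) ≤ |2 * k + 1| * n := mul_le_mul_of_nonneg_right h2 (by omega)
    omega
  obtain ⟨z, z1, z2⟩ := exit_box (r := r) p (by rw [nrm_le]; simp) hout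
  refine ⟨z, ?_, ?_⟩
  · unfold AtDist
    unfold nrm at z1
    rw [sub_zero, sub_zero]
    rcases max_choice |z.1| |z.2| with h | h
    · left; rw [h] at z1; exact z1
    · right; rw [h] at z1; exact z1
  · rw [ball_zero_box, inter_self, inter_eq_left.2 (pw_sub _ _ _)]
    exact z2

/-- the exponent of `pi1` from the winding probabilities -/
theorem pi1_exponent' (hX : CrossBound) {α : ℝ} (hα : 0 < α) {w : ℕ → ℝ}
    (hlim : ∀ n : ℕ, 1 ≤ n → Tendsto (fun K : ℕ => pW n (2 * K + 1)) atTop (𝓝 (w n)))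
    (hw : ∃ c C : ℝ, 0 < c ∧ ∀ n : ℕ, 1 ≤ n → c * (n:ℝ) ^ (-α) ≤ w n ∧
      w n ≤ C * (n:ℝ) ^ (-α)) :
    ∃ c C : ℝ, 0 < c ∧ ∀ n : ℕ, 1 ≤ n → c * (n:ℝ) ^ (-α) ≤ pi1 n ∧
        pi1 n ≤ C * (n:ℝ) ^ (-α) := by
  obtain ⟨c, C, hc, hw⟩ := hw
  obtain ⟨c0, hc0, h0⟩ := Cyl.wind_lower hX
  have h3α : (0:ℝ) < 3 ^ α := Real.rpow_pos_of_pos (by norm_num) _
  refine ⟨c / 3 ^ α, C / c0, by positivity, fun n hn => ⟨?_, ?_⟩⟩
  · have hn0 : (0:ℝ) < n := by exact_mod_cast hn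
    have h1 : w (2 * n + 1) ≤ pi1 n := by
      apply le_of_tendsto (hlim (2 * n + 1) (by omega))
      filter_upwards [eventually_ge_atTop (2 * n + 1)] with M hM
      exact pW_upper le_rfl (by omega)
    refine le_trans ?_ ((hw (2 * n + 1) (by omega)).1.trans h1)
    rw [div_mul_eq_mul_div, mul_div_assoc]
    apply mul_le_mul_of_nonneg_left _ hc.le
    have hn1 : (1:ℝ) ≤ n := by exact_mod_cast hn
    have e1 : ((3:ℝ) * n) ^ (-α) ≤ (((2 * n + 1 : ℕ) : ℝ)) ^ (-α) := by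
      apply Real.rpow_le_rpow_of_nonpos (by positivity) _ (by linarith)
      push_cast
      linarith
    have e2 : ((3:ℝ) * n) ^ (-α) = (n:ℝ) ^ (-α) / 3 ^ α := by
      rw [Real.mul_rpow (by norm_num) hn0.le, Real.rpow_neg (by norm_num : (0:ℝ) ≤ 3)]
      ring
    rw [← e2]
    exact e1
  · have h1 : c0 * pi1 n ≤ w n := by
      apply ge_of_tendsto (hlim n hn)
      filter_upwards [eventually_ge_atTop (2 * n)] with M hM
      exact (h0 n (2 * M + 1) hn (by omega)).trans (pWrap_le_pW _ _)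
    have h2 := h1.trans (hw n hn).2
    rw [div_mul_eq_mul_div, le_div_iff₀ hc0]
    linarith

/-- **The one-arm exponent and the crossing exponents of annuli.** -/
theorem bulk_exponent' (hX : CrossBound) {α : ℝ} (hα : 0 < α) {w : ℕ → ℝ}
    (hlim : ∀ n : ℕ, 1 ≤ n → Tendsto (fun K : ℕ => pW n (2 * K + 1)) atTop (𝓝 (w n)))
    (hw : ∃ c C : ℝ, 0 < c ∧ ∀ n : ℕ, 1 ≤ n → c * (n:ℝ) ^ (-α) ≤ w n ∧
      w n ≤ C * (n:ℝ) ^ (-α)) :
    ∃ c C : ℝ, 0 < c ∧ ∀ m n : ℕ, m ≤ n →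
      c * (((m:ℝ) + 1) / (n + 1)) ^ α ≤ crF m n ∧
      crF m n ≤ C * (((m:ℝ) + 1) / (n + 1)) ^ α := by
  obtain ⟨c, C, hc, h1⟩ := pi1_exponent' hX hα hlim hw
  obtain ⟨k, K, hk, h3⟩ := crossing_full hX hα ⟨c, C, hc, h1⟩
  have hC : 0 ≤ C := by
    obtain ⟨e1, e2⟩ := h1 1 le_rfl
    simp only [Nat.cast_one, Real.one_rpow, mul_one] at e1 e2
    linarith
  have hK : 0 ≤ K := by
    obtain ⟨e2, e3⟩ := h3 1 1 le_rfl le_rfl
    simp only [Nat.cast_one, div_one, Real.one_rpow, mul_one] at e2 e3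
    linarith
  have h2α : (0:ℝ) < 2 ^ α := Real.rpow_pos_of_pos (by norm_num) _
  exact ⟨_, _, lt_min one_pos (lt_min hc (by positivity)), fun m n hmn =>
    uniform_form' hα hc hC hk hK crF_zero_zero (fun n hn => by rw [crF_zero]; exact h1 n hn)
      h3 hmn⟩

/-- **The bulk one-arm exponent from the one-arm form of the stationary vectors.** -/
theorem bulk_of_form {α : ℝ} (hα : 0 < α)
    (hw : ∃ c C : ℝ, 0 < c ∧ ∀ n : ℕ, 1 ≤ n →
      c * (n:ℝ) ^ (-α) ≤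
        IPC.bil (h0 (2 * n)) (IPC.P (2 * n) (fun _ => 0)) (IPC.P (2 * n) (fun _ => 0)) ∧
      IPC.bil (h0 (2 * n)) (IPC.P (2 * n) (fun _ => 0)) (IPC.P (2 * n) (fun _ => 0)) ≤
        C * (n:ℝ) ^ (-α)) :
    ∃ c C : ℝ, 0 < c ∧ ∀ m n : ℕ, m ≤ n →
      c * (((m:ℝ) + 1) / (n + 1)) ^ α ≤ crF m n ∧
      crF m n ≤ C * (((m:ℝ) + 1) / (n + 1)) ^ α :=
  bulk_exponent' H46.rsw_pLR hα (fun _ hn => pW_tendsto hn) hw

end H92Link
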